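import Pool.Agent.Lib.MP_bd8415_an.Arclen.Iso
import Pool.Agent.Lib.MP_bd8415_an.CsTop
import Pool.Agent.Lib.MP_bd8415_an.Ellipse

/-!
# Arc length parametrisations with countably many singularities are entire
-/

open Complex Metric Set Filter Topology

namespace Pool.Agent.Stek

/-- The relations pass to local extensions. -/
theorem local_rel {G H : ℂ → ℂ} (hG : Differentiable ℂ G) (hH : Differentiable ℂ H) {κ : ℂ}
    {F : Set ℂ} (hF : F.Countable) (hFc : IsClosed F) {Z W gz gw : ℂ → ℂ}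
    (hZW : ∀ ζ, ζ ∉ F → deriv Z ζ * deriv W ζ = 1)
    (hrel : ∀ ζ, ζ ∉ F → deriv G (Z ζ) * deriv Z ζ - deriv H (W ζ) * deriv W ζ =
      κ * (G (Z ζ) + H (W ζ))) {x : ℂ} (hgz : AnalyticAt ℂ gz x) (hgw : AnalyticAt ℂ gw x)
    (hz : ∀ᶠ y in 𝓝 x, y ∉ F → gz y = Z y) (hw : ∀ᶠ y in 𝓝 x, y ∉ F → gw y = W y) :
    deriv gz x * deriv gw x = 1 ∧ deriv G (gz x) * deriv gz x - deriv H (gw x) * deriv gw x =
      κ * (G (gz x) + H (gw x)) := by
  have hGd := deriv_differentiable hG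
  have hHd := deriv_differentiable hH
  have hne := neBot_compl hF x
  have hd : ∀ᶠ y in 𝓝 x, y ∉ F → gz y = Z y ∧ deriv gz y = deriv Z y ∧ gw y = W y ∧
      deriv gw y = deriv W y := by
    filter_upwards [hz.eventually_nhds, hw.eventually_nhds] with y h1 h2 hy
    have h3 := hFc.isOpen_compl.mem_nhds hy
    have e1 : gz =ᶠ[𝓝 y] Z := by
      filter_upwards [h1, h3] with v h4 h5 using h4 h5
    have e2 : gw =ᶠ[𝓝 y] W := by
      filter_upwards [h2, h3] with v h4 h5 using h4 h5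
    exact ⟨e1.eq_of_nhds, e1.deriv_eq, e2.eq_of_nhds, e2.deriv_eq⟩
  have cz : ContinuousAt gz x := hgz.continuousAt
  have cw : ContinuousAt gw x := hgw.continuousAt
  have cdz : ContinuousAt (deriv gz) x := hgz.deriv.continuousAt
  have cdw : ContinuousAt (deriv gw) x := hgw.deriv.continuousAt
  have cG : ContinuousAt (fun y => G (gz y)) x :=
    ContinuousAt.comp (f := gz) (g := G) hG.continuous.continuousAt cz
  have cH : ContinuousAt (fun y => H (gw y)) x :=
    ContinuousAt.comp (f := gw) (g := H) hH.continuous.continuousAt cw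
  have cGd : ContinuousAt (fun y => deriv G (gz y)) x :=
    ContinuousAt.comp (f := gz) (g := deriv G) hGd.continuous.continuousAt cz
  have cHd : ContinuousAt (fun y => deriv H (gw y)) x :=
    ContinuousAt.comp (f := gw) (g := deriv H) hHd.continuous.continuousAt cw
  constructor
  · have t1 : Tendsto (fun y => deriv gz y * deriv gw y) (𝓝[Fᶜ] x) (𝓝 (deriv gz x * deriv gw x)) :=
      (cdz.mul cdw).tendsto.mono_left nhdsWithin_le_nhds
    refine tendsto_nhds_unique t1 (tendsto_const_nhds.congr' ?_)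
    rw [Filter.EventuallyEq, eventually_nhdsWithin_iff]
    filter_upwards [hd] with y hy hyF
    obtain ⟨-, e2, -, e4⟩ := hy hyF
    rw [e2, e4, hZW y hyF]
  · have t1 : Tendsto (fun y => deriv G (gz y) * deriv gz y - deriv H (gw y) * deriv gw y -
        κ * (G (gz y) + H (gw y))) (𝓝[Fᶜ] x) (𝓝 (deriv G (gz x) * deriv gz x -
        deriv H (gw x) * deriv gw x - κ * (G (gz x) + H (gw x)))) := by
      have c1 : ContinuousAt (fun y => deriv G (gz y) * deriv gz y - deriv H (gw y) * deriv gw y -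
        κ * (G (gz y) + H (gw y))) x :=
        ((cGd.mul cdz).sub (cHd.mul cdw)).sub ((cG.add cH).const_mul κ)
      exact c1.tendsto.mono_left nhdsWithin_le_nhds
    have h0 : deriv G (gz x) * deriv gz x -
        deriv H (gw x) * deriv gw x - κ * (G (gz x) + H (gw x)) = 0 := by
      refine tendsto_nhds_unique t1 (tendsto_const_nhds.congr' ?_)
      rw [Filter.EventuallyEq, eventually_nhdsWithin_iff]
      filter_upwards [hd] with y hy hyF
      obtain ⟨e1, e2, e3, e4⟩ := hy hyF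
      rw [e1, e2, e3, e4, hrel y hyF, sub_self]
    exact sub_eq_zero.1 h0

/-- The extension to an entire pair. -/
theorem ent_ext {G H : ℂ → ℂ} {R0 : ℝ} (hGr : Grow G H R0) {κ : ℂ}
    {F : Set ℂ} (hF : F.Countable) (hFc : IsClosed F) {Z W : ℂ → ℂ}
    (hZ : DifferentiableOn ℂ Z Fᶜ) (hW : DifferentiableOn ℂ W Fᶜ)
    (hZW : ∀ ζ, ζ ∉ F → deriv Z ζ * deriv W ζ = 1)
    (hrel : ∀ ζ, ζ ∉ F → deriv G (Z ζ) * deriv Z ζ - deriv H (W ζ) * deriv W ζ =
      κ * (G (Z ζ) + H (W ζ))) :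
    ∃ Ze We : ℂ → ℂ, Differentiable ℂ Ze ∧ Differentiable ℂ We ∧
      (∀ ζ, ζ ∉ F → Ze ζ = Z ζ ∧ We ζ = W ζ) ∧ ∀ ζ, deriv Ze ζ * deriv We ζ = 1 ∧
      deriv G (Ze ζ) * deriv Ze ζ - deriv H (We ζ) * deriv We ζ = κ * (G (Ze ζ) + H (We ζ)) := by
  have hZa : ∀ x, x ∉ F → AnalyticAt ℂ Z x := fun x hx =>
    hZ.analyticAt (hFc.isOpen_compl.mem_nhds hx)
  have hWa : ∀ x, x ∉ F → AnalyticAt ℂ W x := fun x hx =>
    hW.analyticAt (hFc.isOpen_compl.mem_nhds hx)
  have main : ∀ x ∈ (univ : Set ℂ), ∃ gz gw : ℂ → ℂ, AnalyticAt ℂ gz x ∧ AnalyticAt ℂ gw x ∧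
      (∀ᶠ y in 𝓝 x, y ∉ F → gz y = Z y) ∧ (∀ᶠ y in 𝓝 x, y ∉ F → gw y = W y) := by
    apply cb_induction isOpen_univ (P := fun x => ∃ gz gw : ℂ → ℂ, AnalyticAt ℂ gz x ∧
      AnalyticAt ℂ gw x ∧ (∀ᶠ y in 𝓝 x, y ∉ F → gz y = Z y) ∧ (∀ᶠ y in 𝓝 x, y ∉ F → gw y = W y))
    · rintro x - ⟨gz, gw, h1, h2, h3, h4⟩
      filter_upwards [h1.eventually_analyticAt, h2.eventually_analyticAt, h3.eventually_nhds,
        h4.eventually_nhds] with y k1 k2 k3 k4
      exact ⟨gz, gw, k1, k2, k3, k4⟩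
    · refine hF.mono ?_
      rintro x ⟨-, hn⟩
      by_contra hxF
      exact hn ⟨Z, W, hZa x hxF, hWa x hxF, Eventually.of_forall fun y _ => rfl,
        Eventually.of_forall fun y _ => rfl⟩
    · intro x _ hev
      obtain ⟨ε, hε, hball⟩ := Metric.eventually_nhds_iff_ball.1 (eventually_nhdsWithin_iff.1 hev)
      have hloc : ∀ y ∈ ball x ε \ {x}, AnalyticAt ℂ (ext F Z) y ∧ AnalyticAt ℂ (ext F W) y ∧
          (∀ᶠ v in 𝓝 y, v ∉ F → ext F Z v = Z v) ∧ (∀ᶠ v in 𝓝 y, v ∉ F → ext F W v = W v) := by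
        intro y hy
        obtain ⟨gz, gw, h1, h2, h3, h4⟩ := hball y hy.1 hy.2
        have e1 := ext_eventuallyEq hF h1 h3
        have e2 := ext_eventuallyEq hF h2 h4
        refine ⟨h1.congr e1.symm, h2.congr e2.symm, ?_, ?_⟩
        · filter_upwards [e1, h3] with v k1 k2 k3
          rw [k1, k2 k3]
        · filter_upwards [e2, h4] with v k1 k2 k3
          rw [k1, k2 k3]
      have hlr : ∀ y ∈ ball x ε \ {x}, deriv (ext F Z) y * deriv (ext F W) y = 1 ∧
          deriv G (ext F Z y) * deriv (ext F Z) y - deriv H (ext F W y) * deriv (ext F W) y =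
          κ * (G (ext F Z y) + H (ext F W y)) := fun y hy => by
        obtain ⟨h1, h2, h3, h4⟩ := hloc y hy
        exact local_rel hGr.hG hGr.hH hF hFc hZW hrel h1 h2 h3 h4
      obtain ⟨C, η, hC, hη, hb⟩ := iso_bound hGr (κ := κ) (Z := ext F Z) (W := ext F W) (c := x)
        (r := ε) hε (fun y hy => (hloc y hy).1.differentiableAt)
        (fun y hy => (hloc y hy).2.1.differentiableAt) (fun y hy => (hlr y hy).1)
        (fun y hy => (hlr y hy).2)
      obtain ⟨gz, hgz, hgz'⟩ := extend_of_bound hε hη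
        (fun y hy => (hloc y hy).1.differentiableAt) (fun y hy => (hb y hy).1)
      obtain ⟨gw, hgw, hgw'⟩ := extend_of_bound hε hη
        (fun y hy => (hloc y hy).2.1.differentiableAt) (fun y hy => (hb y hy).2)
      -- values of the extension off `F`
      have hval : ∀ V : ℂ → ℂ, (∀ y ∈ ball x ε \ {x}, ∀ᶠ v in 𝓝 y, v ∉ F → ext F V v = V v) →
          ∀ g : ℂ → ℂ, AnalyticAt ℂ g x → (∀ y, y ∉ F → AnalyticAt ℂ V y) →
          (∀ᶠ y in 𝓝[≠] x, g y = ext F V y) → ∀ᶠ y in 𝓝 x, y ∉ F → g y = V y := by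
        intro V hV g hg hVa hgV
        have h1 := eventually_nhdsWithin_iff.1 hgV
        filter_upwards [h1, ball_mem_nhds x hε] with y k1 k2 k3
        by_cases hyx : y = x
        · subst hyx
          -- both sides are continuous at `x`
          have t1 : Tendsto g (𝓝[≠] y) (𝓝 (g y)) :=
            hg.continuousAt.tendsto.mono_left nhdsWithin_le_nhds
          have t2 : Tendsto V (𝓝[≠] y) (𝓝 (V y)) :=
            (hVa y k3).continuousAt.tendsto.mono_left nhdsWithin_le_nhds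
          refine tendsto_nhds_unique t1 (t2.congr' ?_)
          filter_upwards [hgV, nhdsWithin_le_nhds (ball_mem_nhds y hε), self_mem_nhdsWithin,
            nhdsWithin_le_nhds (hFc.isOpen_compl.mem_nhds k3)] with v j1 j2 j3 j4
          rw [j1, (hV v ⟨j2, j3⟩).self_of_nhds j4]
        · rw [k1 hyx, (hV y ⟨k2, hyx⟩).self_of_nhds k3]
      exact ⟨gz, gw, hgz, hgw,
        hval Z (fun y hy => (hloc y hy).2.2.1) gz hgz hZa hgz',
        hval W (fun y hy => (hloc y hy).2.2.2) gw hgw hWa hgw'⟩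
  have hloc : ∀ y : ℂ, AnalyticAt ℂ (ext F Z) y ∧ AnalyticAt ℂ (ext F W) y ∧
      (∀ᶠ v in 𝓝 y, v ∉ F → ext F Z v = Z v) ∧ (∀ᶠ v in 𝓝 y, v ∉ F → ext F W v = W v) := by
    intro y
    obtain ⟨gz, gw, h1, h2, h3, h4⟩ := main y (mem_univ y)
    have e1 := ext_eventuallyEq hF h1 h3
    have e2 := ext_eventuallyEq hF h2 h4
    refine ⟨h1.congr e1.symm, h2.congr e2.symm, ?_, ?_⟩
    · filter_upwards [e1, h3] with v k1 k2 k3
      rw [k1, k2 k3]
    · filter_upwards [e2, h4] with v k1 k2 k3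
      rw [k1, k2 k3]
  refine ⟨ext F Z, ext F W, fun y => (hloc y).1.differentiableAt,
    fun y => (hloc y).2.1.differentiableAt, fun ζ hζ => ⟨(hloc ζ).2.2.1.self_of_nhds hζ,
      (hloc ζ).2.2.2.self_of_nhds hζ⟩, fun ζ => ?_⟩
  obtain ⟨h1, h2, h3, h4⟩ := hloc ζ
  exact local_rel hGr.hG hGr.hH hF hFc hZW hrel h1 h2 h3 h4

end Pool.Agent.Stek
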