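import Mathlib

/-!
# Growth of a nonconstant entire function
-/

open Complex Metric Set Filter Topology

namespace Pool.Agent.Stek

theorem grow_G {G : ℂ → ℂ} (hG : Differentiable ℂ G) (hnc : ¬ ∃ b, ∀ z, G z = b) :
    ∃ R0 : ℝ, 0 < R0 ∧ ∀ P, R0 ≤ P → ∃ zb xP : ℂ, ‖zb‖ = Real.exp 1 * P ∧
      (∀ x, ‖x‖ ≤ P → ‖G x‖ ≤ ‖G xP‖) ∧ 2 * ‖G xP‖ < ‖G zb‖ := by
  obtain ⟨x1, hx1⟩ : ∃ x1, 20 * ‖G 0‖ < ‖G x1 - G 0‖ := by
    by_contra hcon
    push Not at hcon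
    apply hnc
    refine ⟨G 0, fun z => ?_⟩
    apply hG.apply_eq_apply_of_bounded
    rw [isBounded_iff_forall_norm_le]
    refine ⟨20 * ‖G 0‖ + ‖G 0‖, ?_⟩
    rintro _ ⟨y, rfl⟩
    have : ‖G y‖ ≤ ‖G y - G 0‖ + ‖G 0‖ := by simpa using norm_add_le (G y - G 0) (G 0)
    linarith [hcon y]
  refine ⟨‖x1‖ + 1, by positivity, fun P hP => ?_⟩
  have hP0 : 0 < P := by have := norm_nonneg x1; linarith
  have he : (2.7 : ℝ) ≤ Real.exp 1 := by
    have := Real.exp_one_gt_d9; linarith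
  have heP : P < Real.exp 1 * P := by nlinarith
  set g : ℂ → ℂ := fun z => G z - G 0 with hg
  have hgd : Differentiable ℂ g := hG.sub_const _
  have hR : 0 < Real.exp 1 * P := by positivity
  obtain ⟨zb, hzb, hmax⟩ := Complex.exists_mem_frontier_isMaxOn_norm
    (f := g) (U := ball (0 : ℂ) (Real.exp 1 * P)) isBounded_ball
    ⟨0, mem_ball_self hR⟩ hgd.diffContOnCl
  rw [frontier_ball _ hR.ne', mem_sphere_zero_iff_norm] at hzb
  rw [closure_ball _ hR.ne'] at hmax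
  set M := ‖g zb‖ with hM
  have hmax' : ∀ x, ‖x‖ ≤ Real.exp 1 * P → ‖g x‖ ≤ M := fun x hx =>
    hmax (mem_closedBall_zero_iff.2 hx)
  have hMx : ‖g x1‖ ≤ M := hmax' x1 (by linarith)
  obtain ⟨xP, hxP', hxPm⟩ := (isCompact_closedBall (0 : ℂ) P).exists_isMaxOn
    ⟨0, mem_closedBall_self hP0.le⟩ hG.continuous.norm.continuousOn
  have hg0 : g 0 = 0 := by simp [hg]
  have hschw : ∀ x, ‖x‖ ≤ P → ‖g x‖ ≤ M / Real.exp 1 := by
    intro x hx
    have h1 : MapsTo g (ball 0 (Real.exp 1 * P)) (closedBall (g 0) M) := by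
      intro y hy
      rw [hg0, mem_closedBall_zero_iff]
      exact hmax' y (mem_ball_zero_iff.1 hy).le
    have h2 := Complex.dist_le_div_mul_dist_of_mapsTo_ball hgd.differentiableOn h1
      (z := x) (mem_ball_zero_iff.2 (by linarith))
    rw [hg0, dist_zero_right, dist_zero_right] at h2
    calc ‖g x‖ ≤ M / (Real.exp 1 * P) * ‖x‖ := h2
      _ ≤ M / (Real.exp 1 * P) * P := by
          apply mul_le_mul_of_nonneg_left hx
          exact div_nonneg (norm_nonneg _) hR.le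
      _ = M / Real.exp 1 := by field_simp
  have hxP : ‖xP‖ ≤ P := mem_closedBall_zero_iff.1 hxP'
  refine ⟨zb, xP, hzb, fun x hx => hxPm (mem_closedBall_zero_iff.2 hx), ?_⟩
  have h1 : ‖G xP‖ ≤ ‖g xP‖ + ‖G 0‖ := by
    calc ‖G xP‖ = ‖g xP + G 0‖ := by rw [hg]; simp
      _ ≤ _ := norm_add_le _ _
  have h2 : M ≤ ‖G zb‖ + ‖G 0‖ := norm_sub_le _ _
  have h3 := hschw xP hxP
  have h4 : M / Real.exp 1 ≤ M / 2.7 := by
    apply div_le_div_of_nonneg_left (norm_nonneg _) (by norm_num) he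
  have h5 : M / 2.7 = M * (10 / 27) := by ring
  have h6 := norm_nonneg (G 0)
  linarith

end Pool.Agent.Stek
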