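import Pool.Agent.Lib.MP_bd8415_an.Arclen.Iso

/-!
# Entire arc length parametrisations have exponential type
-/

open Complex Metric Set Filter Topology

namespace Pool.Agent.Stek

/-- Exponential growth of an entire pair. -/
theorem inf_growth {G H : ℂ → ℂ} {R0 : ℝ} (hGr : Grow G H R0) {κ : ℂ} {Z W : ℂ → ℂ}
    (hZ : Differentiable ℂ Z) (hW : Differentiable ℂ W)
    (hZW : ∀ ζ, deriv Z ζ * deriv W ζ = 1)
    (hrel : ∀ ζ, deriv G (Z ζ) * deriv Z ζ - deriv H (W ζ) * deriv W ζ =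
      κ * (G (Z ζ) + H (W ζ))) :
    ∃ C c : ℝ, 1 ≤ C ∧ 0 < c ∧ ∀ ζ, ‖Z ζ‖ ≤ C * Real.exp (c * ‖ζ‖) := by
  obtain ⟨m, hm⟩ : ∃ m : ℕ, m = 16000000 := ⟨_, rfl⟩
  have hmr : (m : ℝ) = 16000000 := by rw [hm]; norm_num
  have hm0 : (0 : ℝ) < m := by rw [hmr]; norm_num
  set δ : ℝ := 1 / (1 + 50 * ‖κ‖) with hδ
  have hκ := norm_nonneg κ
  have hδ0 : 0 < δ := by positivity
  have hδ1 : δ ≤ 1 := by
    rw [hδ, div_le_one (by positivity)]; linarith
  have hδκ : 50 * (‖κ‖ * δ) ≤ 1 := by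
    rw [hδ]
    rw [← mul_assoc, mul_one_div, div_le_one (by positivity)]
    linarith
  set c₁ : ℝ := δ * m / 8 with hc₁
  have hc0 : 0 < c₁ := by positivity
  obtain ⟨N₀, hN₀⟩ : ∃ N₀ : ℝ, ∀ ζ : ℂ, ‖ζ‖ ≤ 2 * c₁ → ‖Z ζ‖ ≤ N₀ ∧ ‖W ζ‖ ≤ N₀ := by
    have hc2 : Continuous (fun ζ => max ‖Z ζ‖ ‖W ζ‖) :=
      hZ.continuous.norm.max hW.continuous.norm
    obtain ⟨N₀, hN₀⟩ := (isCompact_closedBall (0 : ℂ) (2 * c₁)).bddAbove_image hc2.continuousOn
    refine ⟨N₀, fun ζ h1 => ?_⟩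
    have h5 := hN₀ (mem_image_of_mem _ (mem_closedBall_zero_iff.2 h1))
    exact ⟨(le_max_left _ _).trans h5, (le_max_right _ _).trans h5⟩
  set N : ℝ := max N₀ (max 1000000 R0) with hN
  have hN1 : 1000000 ≤ N := (le_max_left _ _).trans (le_max_right _ _)
  have hNR : R0 ≤ N := (le_max_right _ _).trans (le_max_right _ _)
  have hN0 : 0 < N := by linarith
  have h4m : (1 : ℝ) ≤ 4 ^ m := one_le_pow₀ (by norm_num)
  have hper : ∀ τ : ℂ, exp (τ + 2 * Real.pi * I) = exp τ := by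
    intro τ
    rw [Complex.exp_add, Complex.exp_two_pi_mul_I, mul_one]
  have hdz : ∀ V : ℂ → ℂ, Differentiable ℂ V → ∀ τ : ℂ,
      HasDerivAt (fun τ : ℂ => V (exp τ)) (deriv V (exp τ) * exp τ) τ := by
    intro V hV τ
    exact ((hV _).hasDerivAt).comp τ (Complex.hasDerivAt_exp τ)
  have hind : ∀ k : ℕ, ∀ ζ : ℂ, ‖ζ‖ ≤ 2 * c₁ + k * c₁ →
      max ‖Z ζ‖ ‖W ζ‖ ≤ N * ((4 : ℝ) ^ m) ^ k := by
    intro k
    induction k with
    | zero =>
      intro ζ h2
      have h3 := hN₀ ζ (by simpa using h2)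
      rw [pow_zero, mul_one]
      exact max_le (h3.1.trans (le_max_left _ _)) (h3.2.trans (le_max_left _ _))
    | succ k ih =>
      intro ζ h2
      have hpow : N * ((4 : ℝ) ^ m) ^ k ≤ N * ((4 : ℝ) ^ m) ^ (k + 1) := by
        apply mul_le_mul_of_nonneg_left _ hN0.le
        exact pow_le_pow_right₀ h4m (Nat.le_succ k)
      rcases le_or_gt ‖ζ‖ (2 * c₁ + k * c₁) with h3 | h3
      · exact (ih ζ h3).trans hpow
      · push_cast at h2
        have hk0 : (0 : ℝ) ≤ k * c₁ := by positivity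
        set r : ℝ := ‖ζ‖ - c₁ with hr
        have hr1 : c₁ < r := by rw [hr]; linarith
        have hr0 : 0 < r := by linarith
        have hζ0 : 0 < ‖ζ‖ := by linarith
        have hζne : ζ ≠ 0 := norm_pos_iff.1 hζ0
        have hrζ : r < ‖ζ‖ := by rw [hr]; linarith
        set a : ℝ := Real.log r with ha
        set b : ℝ := 2 * Real.log ‖ζ‖ - Real.log r with hb
        have hlog : Real.log r < Real.log ‖ζ‖ := Real.log_lt_log hr0 hrζ
        have hba : b - a = 2 * (Real.log ‖ζ‖ - Real.log r) := by rw [hb, ha]; ring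
        have hba2 : b - a ≤ 2 * (c₁ / r) := by
          rw [hba, ← Real.log_div hζ0.ne' hr0.ne']
          have h4 := Real.log_le_sub_one_of_pos (div_pos hζ0 hr0)
          have h5 : ‖ζ‖ / r - 1 = c₁ / r := by
            have h6 : ‖ζ‖ = r + c₁ := by rw [hr]; ring
            rw [h6, add_div, div_self hr0.ne']
            ring
          linarith
        have heb : Real.exp b = ‖ζ‖ ^ 2 / r := by
          rw [hb, Real.exp_sub, Real.exp_log hr0, two_mul, Real.exp_add, Real.exp_log hζ0, sq]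
        have hNk : N ≤ N * ((4 : ℝ) ^ m) ^ k := by
          have : (1 : ℝ) ≤ ((4 : ℝ) ^ m) ^ k := one_le_pow₀ h4m
          nlinarith
        have hst := step hGr.hG hGr.hH hGr.growG hGr.growH hGr.GH hGr.HG hm hδ1 hδκ (κ := κ)
          (z := fun τ : ℂ => Z (exp τ)) (w := fun τ : ℂ => W (exp τ)) (φ := fun τ : ℂ => exp τ)
          (a := a) (b := b) (N := N * ((4 : ℝ) ^ m) ^ k)
          (by linarith)
          (fun τ' h => (hdz Z hZ τ').differentiableAt)
          (fun τ' h => (hdz W hW τ').differentiableAt)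
          (fun τ => by simp only [hper]) (fun τ => by simp only [hper])
          (fun τ' h h' => by
            rw [(hdz Z hZ τ').deriv, (hdz W hW τ').deriv]
            refine ⟨by linear_combination (exp τ') ^ 2 * hZW (exp τ'), ?_⟩
            rw [Complex.norm_exp]
            have h5 : Real.exp τ'.re ≤ ‖ζ‖ ^ 2 / r := by
              rw [← heb]; exact Real.exp_le_exp.2 h'
            have h6 : ‖ζ‖ ≤ 2 * r := by rw [hr]; linarith
            have h9 : 0 ≤ (b - a) / m := div_nonneg (by linarith) hm0.le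
            calc Real.exp τ'.re * ((b - a) / m) ≤ (‖ζ‖ ^ 2 / r) * ((2 * (c₁ / r)) / m) := by
                  gcongr
              _ = (‖ζ‖ / r) ^ 2 * (2 * c₁ / m) := by ring
              _ ≤ 2 ^ 2 * (2 * c₁ / m) := by
                  have h7 : ‖ζ‖ / r ≤ 2 := by rw [div_le_iff₀ hr0]; exact h6
                  have h8 : (‖ζ‖ / r) ^ 2 ≤ 2 ^ 2 := pow_le_pow_left₀ (by positivity) h7 2
                  exact mul_le_mul_of_nonneg_right h8 (by positivity)
              _ = δ := by rw [hc₁]; field_simp; ring)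
          (fun τ' h h' => by
            rw [(hdz Z hZ τ').deriv, (hdz W hW τ').deriv]
            linear_combination (exp τ') * hrel (exp τ'))
          (hN1.trans hNk) (hNR.trans hNk)
          (fun τ' h h' => by
            have h6 : ‖exp τ'‖ ≤ 2 * c₁ + k * c₁ := by
              rw [Complex.norm_exp]
              have h7 : Real.exp τ'.re ≤ r := by
                rw [← Real.le_log_iff_exp_le hr0]; exact h'
              linarith
            have h5 := ih (exp τ') h6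
            exact ⟨(le_max_left _ _).trans h5, (le_max_right _ _).trans h5⟩)
          (Complex.log ζ) (by rw [Complex.log_re, ha, hb]; ring)
        simp only [Complex.exp_log hζne] at hst
        calc max ‖Z ζ‖ ‖W ζ‖ ≤ 4 ^ m * (N * ((4 : ℝ) ^ m) ^ k) := hst
          _ = N * ((4 : ℝ) ^ m) ^ (k + 1) := by rw [pow_succ ((4 : ℝ) ^ m) k]; ring
  have hlog0 : 0 < Real.log 4 := Real.log_pos (by norm_num)
  refine ⟨N * Real.exp (m * Real.log 4), m * Real.log 4 / c₁, ?_, by positivity, fun ζ => ?_⟩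
  · have h1 : (1 : ℝ) ≤ Real.exp (m * Real.log 4) := Real.one_le_exp (by positivity)
    nlinarith
  set k := ⌈‖ζ‖ / c₁⌉₊ with hk
  have hk1 : ‖ζ‖ / c₁ ≤ k := Nat.le_ceil _
  have hk2 : (k : ℝ) < ‖ζ‖ / c₁ + 1 := Nat.ceil_lt_add_one (by positivity)
  rw [div_le_iff₀ hc0] at hk1
  have h1 := hind k ζ (by linarith)
  refine ((le_max_left _ _).trans h1).trans ?_
  have h2 : ((4 : ℝ) ^ m) ^ k = Real.exp (k * (m * Real.log 4)) := by
    rw [Real.exp_nat_mul, Real.exp_nat_mul, Real.exp_log (by norm_num)]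
  rw [h2]
  have h3 : (k : ℝ) * (m * Real.log 4) ≤ m * Real.log 4 + m * Real.log 4 / c₁ * ‖ζ‖ := by
    calc (k : ℝ) * (m * Real.log 4) ≤ (‖ζ‖ / c₁ + 1) * (m * Real.log 4) := by
          apply mul_le_mul_of_nonneg_right hk2.le (by positivity)
      _ = m * Real.log 4 + m * Real.log 4 / c₁ * ‖ζ‖ := by ring
  calc N * Real.exp (k * (m * Real.log 4)) ≤
        N * Real.exp (m * Real.log 4 + m * Real.log 4 / c₁ * ‖ζ‖) := by gcongr
    _ = N * Real.exp (m * Real.log 4) * Real.exp (m * Real.log 4 / c₁ * ‖ζ‖) := by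
        rw [Real.exp_add]; ring

/-- A zero free entire function of exponential type is the exponential of an affine function. -/
theorem affine_of_expType {f : ℂ → ℂ} (hf : Differentiable ℂ f) (hf0 : ∀ ζ, f ζ ≠ 0) {C c : ℝ}
    (hC : 1 ≤ C) (hc : 0 < c) (hb : ∀ ζ, ‖f ζ‖ ≤ C * Real.exp (c * ‖ζ‖)) :
    ∃ α β : ℂ, ∀ ζ, f ζ = exp (α + β * ζ) := by
  have hfd : Differentiable ℂ (deriv f) := by
    intro z
    exact (hf.analyticAt z).deriv.differentiableAt
  have hq0 : Differentiable ℂ (fun ζ => deriv f ζ / f ζ) := hfd.div hf hf0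
  obtain ⟨q, hq00, hq'⟩ := hq0.isExactOn_univ.with_val_at 0 (Complex.log (f 0))
  have hq : ∀ ζ, HasDerivAt q (deriv f ζ / f ζ) ζ := fun ζ => hq' ζ (mem_univ ζ)
  have hqd : Differentiable ℂ q := fun ζ => (hq ζ).differentiableAt
  have hfq : ∀ ζ, f ζ = exp (q ζ) := by
    have h1 : Differentiable ℂ (fun ζ => f ζ * exp (-(q ζ))) := hf.mul hqd.neg.cexp
    have h2 : ∀ ζ, deriv (fun ζ => f ζ * exp (-(q ζ))) ζ = 0 := by
      intro ζ
      have h3 : HasDerivAt (fun ζ => f ζ * exp (-(q ζ)))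
          (deriv f ζ * exp (-(q ζ)) + f ζ * (exp (-(q ζ)) * (-(deriv f ζ / f ζ)))) ζ :=
        (hf ζ).hasDerivAt.mul (hq ζ).neg.cexp
      rw [h3.deriv]
      have := hf0 ζ
      field_simp
      ring
    intro ζ
    have h4 := is_const_of_deriv_eq_zero h1 h2 ζ 0
    simp only [hq00] at h4
    rw [Complex.exp_neg (Complex.log (f 0)), Complex.exp_log (hf0 0), mul_inv_cancel₀ (hf0 0)] at h4
    rw [Complex.exp_neg] at h4
    have h5 := Complex.exp_ne_zero (q ζ)
    field_simp at h4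
    exact h4
  have hre : ∀ ζ, (q ζ).re ≤ Real.log C + c * ‖ζ‖ := by
    intro ζ
    have h1 := hb ζ
    rw [hfq ζ, Complex.norm_exp] at h1
    have h2 : Real.exp (q ζ).re ≤ Real.exp (Real.log C + c * ‖ζ‖) := by
      rw [Real.exp_add, Real.exp_log (by linarith)]; exact h1
    exact Real.exp_le_exp.1 h2
  have hlogC : 0 ≤ Real.log C := Real.log_nonneg hC
  -- linear growth
  set K : ℝ := 2 * (Real.log C + 2 * c + 1) + 3 * ‖q 0‖ + 4 * c with hK
  have hK0 : 0 < K := by positivity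
  have hlin : ∀ ζ, ‖q ζ‖ ≤ K * (1 + ‖ζ‖) := by
    intro ζ
    set R : ℝ := 2 * ‖ζ‖ + 2 with hR
    have hn := norm_nonneg ζ
    have hR0 : 0 < R := by positivity
    set M : ℝ := Real.log C + c * R + 1 with hM
    have hM0 : 0 < M := by positivity
    have hmaps : MapsTo q (ball 0 R) {z | z.re ≤ M} := by
      intro x hx
      have h1 := hre x
      have h2 : ‖x‖ < R := mem_ball_zero_iff.1 hx
      have h3 : c * ‖x‖ ≤ c * R := by gcongr
      show (q x).re ≤ M
      linarith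
    have hmem : ζ ∈ ball (0 : ℂ) R := by rw [mem_ball_zero_iff]; linarith
    have hbc := Complex.borelCaratheodory hM0 hqd.differentiableOn hmaps hR0 hmem
    have hRz : 0 < R - ‖ζ‖ := by linarith
    have h1 : 2 * M * ‖ζ‖ / (R - ‖ζ‖) ≤ 2 * M := by
      rw [div_le_iff₀ hRz]
      have : ‖ζ‖ ≤ R - ‖ζ‖ := by linarith
      nlinarith
    have h2 : ‖q 0‖ * (R + ‖ζ‖) / (R - ‖ζ‖) ≤ 3 * ‖q 0‖ := by
      rw [div_le_iff₀ hRz]
      have : R + ‖ζ‖ ≤ 3 * (R - ‖ζ‖) := by linarith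
      have := norm_nonneg (q 0)
      nlinarith
    have h3 : 2 * M + 3 * ‖q 0‖ ≤ K * (1 + ‖ζ‖) := by
      rw [hM, hR, hK]
      have e1 := norm_nonneg (q 0)
      have e2 : 0 ≤ Real.log C * ‖ζ‖ := mul_nonneg hlogC hn
      have e3 : 0 ≤ ‖q 0‖ * ‖ζ‖ := mul_nonneg e1 hn
      have e4 : 0 ≤ c * ‖ζ‖ := mul_nonneg hc.le hn
      nlinarith
    linarith
  -- the derivative is bounded, hence constant
  have hqdd : Differentiable ℂ (deriv q) := by
    intro z
    exact (hqd.analyticAt z).deriv.differentiableAt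
  have hbd : ∀ ζ, ‖deriv q ζ‖ ≤ 3 * K := by
    intro ζ
    have hn := norm_nonneg ζ
    have h1 : ‖deriv q ζ‖ ≤ (K * (2 + 2 * ‖ζ‖)) / (‖ζ‖ + 1) := by
      apply Complex.norm_deriv_le_of_forall_mem_sphere_norm_le (by positivity) hqd.diffContOnCl
      intro x hx
      rw [mem_sphere, dist_eq_norm] at hx
      refine (hlin x).trans ?_
      have : ‖x‖ ≤ ‖x - ζ‖ + ‖ζ‖ := by simpa using norm_add_le (x - ζ) ζ
      apply mul_le_mul_of_nonneg_left _ hK0.le
      linarith
    refine h1.trans ?_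
    rw [div_le_iff₀ (by positivity)]
    nlinarith
  have hconst : ∀ ζ, deriv q ζ = deriv q 0 := by
    intro ζ
    apply hqdd.apply_eq_apply_of_bounded
    rw [isBounded_iff_forall_norm_le]
    refine ⟨3 * K, ?_⟩
    rintro _ ⟨y, rfl⟩
    exact hbd y
  have haff : ∀ ζ, q ζ = q 0 + deriv q 0 * ζ := by
    have h1 : Differentiable ℂ (fun ζ => q ζ - deriv q 0 * ζ) :=
      hqd.sub ((differentiable_id).const_mul _)
    have h2 : ∀ ζ, deriv (fun ζ => q ζ - deriv q 0 * ζ) ζ = 0 := by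
      intro ζ
      have h3 : HasDerivAt (fun ζ => q ζ - deriv q 0 * ζ) (deriv q ζ - deriv q 0 * 1) ζ :=
        (hqd ζ).hasDerivAt.sub ((hasDerivAt_id ζ).const_mul _)
      rw [h3.deriv, hconst ζ]
      ring
    intro ζ
    have h4 := is_const_of_deriv_eq_zero h1 h2 ζ 0
    simp only [mul_zero, sub_zero] at h4
    linear_combination h4
  exact ⟨q 0, deriv q 0, fun ζ => by rw [hfq ζ, haff ζ]⟩

end Pool.Agent.Stek
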