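import Pool.Agent.Lib.MP_bd8415_an.Arclen.Step

/-!
# Isolated singularities of an arc length parametrisation are removable
-/

open Complex Metric Set Filter Topology

namespace Pool.Agent.Stek

/-- The growth hypotheses on the pair `G`, `H`. -/
structure Grow (G H : ℂ → ℂ) (R0 : ℝ) : Prop where
  hG : Differentiable ℂ G
  hH : Differentiable ℂ H
  growG : ∀ P, R0 ≤ P → ∃ zb xP : ℂ, ‖zb‖ = Real.exp 1 * P ∧
      (∀ x, ‖x‖ ≤ P → ‖G x‖ ≤ ‖G xP‖) ∧ 2 * ‖G xP‖ < ‖G zb‖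
  growH : ∀ P, R0 ≤ P → ∃ zb xP : ℂ, ‖zb‖ = Real.exp 1 * P ∧
      (∀ x, ‖x‖ ≤ P → ‖H x‖ ≤ ‖H xP‖) ∧ 2 * ‖H xP‖ < ‖H zb‖
  GH : ∀ P B : ℝ, (∀ x, ‖x‖ ≤ P → ‖G x‖ ≤ B) → ∀ x, ‖x‖ ≤ P → ‖H x‖ ≤ B
  HG : ∀ P B : ℝ, (∀ x, ‖x‖ ≤ P → ‖H x‖ ≤ B) → ∀ x, ‖x‖ ≤ P → ‖G x‖ ≤ B

/-- Slow growth in the logarithmic coordinate. -/
theorem tau_growth {G H : ℂ → ℂ} {R0 : ℝ} (hGr : Grow G H R0) {κ : ℂ} {z w φ : ℂ → ℂ} {A : ℝ}
    (hz : ∀ τ : ℂ, A ≤ τ.re → DifferentiableAt ℂ z τ)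
    (hw : ∀ τ : ℂ, A ≤ τ.re → DifferentiableAt ℂ w τ)
    (hpz : ∀ τ, z (τ + 2 * Real.pi * I) = z τ) (hpw : ∀ τ, w (τ + 2 * Real.pi * I) = w τ)
    (hφ : ∀ τ : ℂ, A ≤ τ.re → deriv z τ * deriv w τ = φ τ ^ 2 ∧ ‖φ τ‖ ≤ Real.exp (-τ.re))
    (hrel : ∀ τ : ℂ, A ≤ τ.re → deriv G (z τ) * deriv z τ -
      deriv H (w τ) * deriv w τ = κ * φ τ * (G (z τ) + H (w τ))) :
    ∃ C A₁ : ℝ, 0 ≤ C ∧ ∀ τ : ℂ, A₁ ≤ τ.re → max ‖z τ‖ ‖w τ‖ ≤ C * Real.exp (τ.re / 2) := by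
  obtain ⟨m, hm⟩ : ∃ m : ℕ, m = 16000000 := ⟨_, rfl⟩
  have hmr : (m : ℝ) = 16000000 := by rw [hm]; norm_num
  have hm0 : (0 : ℝ) < m := by rw [hmr]; norm_num
  set δ : ℝ := 1 / (1 + 50 * ‖κ‖) with hδ
  have hκ := norm_nonneg κ
  have hδ0 : 0 < δ := by positivity
  have hδ1 : δ ≤ 1 := by
    rw [hδ, div_le_one (by positivity)]; linarith
  have hδκ : 50 * (‖κ‖ * δ) ≤ 1 := by
    rw [hδ]
    rw [← mul_assoc, mul_one_div, div_le_one (by positivity)]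
    linarith
  set L : ℝ := 4 * m with hL
  have hL0 : 0 < L := by positivity
  set A₁ : ℝ := max A (Real.log (8 / δ)) with hA₁
  have hAA : A ≤ A₁ := le_max_left _ _
  have hφ8 : ∀ τ : ℂ, A₁ ≤ τ.re → ‖φ τ‖ * 8 ≤ δ := by
    intro τ hτ
    have h1 := (hφ τ (hAA.trans hτ)).2
    have h2 : Real.exp (-τ.re) ≤ Real.exp (-(Real.log (8 / δ))) :=
      Real.exp_le_exp.2 (by linarith [le_max_right A (Real.log (8 / δ))])
    rw [Real.exp_neg (Real.log (8 / δ)), Real.exp_log (by positivity)] at h2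
    have h3 : ‖φ τ‖ ≤ δ / 8 := by
      calc ‖φ τ‖ ≤ (8 / δ)⁻¹ := h1.trans h2
        _ = δ / 8 := by rw [inv_div]
    linarith
  -- the initial bound
  obtain ⟨N₀, hN₀⟩ : ∃ N₀ : ℝ, ∀ τ : ℂ, A₁ ≤ τ.re → τ.re ≤ A₁ + 3 * L →
      ‖z τ‖ ≤ N₀ ∧ ‖w τ‖ ≤ N₀ := by
    set Q : Set ℂ := Icc A₁ (A₁ + 3 * L) ×ℂ Icc 0 (2 * Real.pi) with hQ
    have hQc : IsCompact Q := isCompact_Icc.reProdIm isCompact_Icc
    have hc1 : ContinuousOn (fun τ => max ‖z τ‖ ‖w τ‖) Q := by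
      intro τ hτ
      have h1 : A ≤ τ.re := hAA.trans hτ.1.1
      have h2 : ContinuousAt (fun τ => max ‖z τ‖ ‖w τ‖) τ :=
        (hz τ h1).continuousAt.norm.max (hw τ h1).continuousAt.norm
      exact h2.continuousWithinAt
    obtain ⟨N₀, hN₀⟩ := hQc.bddAbove_image hc1
    refine ⟨N₀, fun τ h1 h2 => ?_⟩
    obtain ⟨k, hk1, hk2⟩ := exists_period_shift τ
    have h3 : (τ + k * (2 * Real.pi * I)).re = τ.re := by simp
    have h4 : τ + k * (2 * Real.pi * I) ∈ Q := by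
      refine ⟨?_, hk1, hk2⟩
      rw [mem_preimage, h3]
      exact ⟨h1, h2⟩
    have h5 := hN₀ (mem_image_of_mem _ h4)
    simp only [periodic_reduce hpz, periodic_reduce hpw] at h5
    exact ⟨(le_max_left _ _).trans h5, (le_max_right _ _).trans h5⟩
  set N : ℝ := max N₀ (max 1000000 R0) with hN
  have hN1 : 1000000 ≤ N := (le_max_left _ _).trans (le_max_right _ _)
  have hNR : R0 ≤ N := (le_max_right _ _).trans (le_max_right _ _)
  have hN0 : 0 < N := by linarith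
  have h4m : (1 : ℝ) ≤ 4 ^ m := one_le_pow₀ (by norm_num)
  have hind : ∀ k : ℕ, ∀ τ : ℂ, A₁ ≤ τ.re → τ.re ≤ A₁ + 3 * L + k * L →
      max ‖z τ‖ ‖w τ‖ ≤ N * ((4 : ℝ) ^ m) ^ k := by
    intro k
    induction k with
    | zero =>
      intro τ h1 h2
      have h3 := hN₀ τ h1 (by simpa using h2)
      rw [pow_zero, mul_one]
      exact max_le (h3.1.trans (le_max_left _ _)) (h3.2.trans (le_max_left _ _))
    | succ k ih =>
      intro τ h1 h2
      have hpow : N * ((4 : ℝ) ^ m) ^ k ≤ N * ((4 : ℝ) ^ m) ^ (k + 1) := by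
        apply mul_le_mul_of_nonneg_left _ hN0.le
        exact pow_le_pow_right₀ h4m (Nat.le_succ k)
      rcases le_or_gt τ.re (A₁ + 3 * L + k * L) with h3 | h3
      · exact (ih τ h1 h3).trans hpow
      · set a : ℝ := τ.re - L with ha
        set b : ℝ := a + 2 * L with hb
        have hk0 : (0 : ℝ) ≤ k * L := by positivity
        have hNk : N ≤ N * ((4 : ℝ) ^ m) ^ k := by
          have : (1 : ℝ) ≤ ((4 : ℝ) ^ m) ^ k := one_le_pow₀ h4m
          nlinarith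
        push_cast at h2
        have hlow : A₁ ≤ a - (b - a) := by rw [hb, ha]; linarith
        have hst := step hGr.hG hGr.hH hGr.growG hGr.growH hGr.GH hGr.HG hm hδ1 hδκ
          (z := z) (w := w) (φ := φ) (a := a) (b := b) (N := N * ((4 : ℝ) ^ m) ^ k)
          (by rw [hb]; linarith)
          (fun τ' h => hz τ' (hAA.trans (hlow.trans h)))
          (fun τ' h => hw τ' (hAA.trans (hlow.trans h))) hpz hpw
          (fun τ' h h' => ⟨(hφ τ' (hAA.trans (hlow.trans h))).1, by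
            have h5 := hφ8 τ' (hlow.trans h)
            have h6 : (b - a) / m = 8 := by
              rw [hb, hL]; field_simp; ring
            rw [h6]; exact h5⟩)
          (fun τ' h h' => hrel τ' (hAA.trans (hlow.trans h)))
          (hN1.trans hNk) (hNR.trans hNk)
          (fun τ' h h' => by
            have h5 := ih τ' (hlow.trans h) (by rw [ha] at h'; linarith)
            exact ⟨(le_max_left _ _).trans h5, (le_max_right _ _).trans h5⟩)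
          τ (by rw [hb, ha]; ring)
        calc max ‖z τ‖ ‖w τ‖ ≤ 4 ^ m * (N * ((4 : ℝ) ^ m) ^ k) := hst
          _ = N * ((4 : ℝ) ^ m) ^ (k + 1) := by rw [pow_succ ((4 : ℝ) ^ m) k]; ring
  refine ⟨N * Real.exp (m * Real.log 4) * Real.exp (-A₁ / 2), A₁, by positivity, fun τ hτ => ?_⟩
  set x := τ.re - A₁ with hx
  have hx0 : 0 ≤ x := by rw [hx]; linarith
  set k := ⌈x / L⌉₊ with hk
  have hk1 : x / L ≤ k := Nat.le_ceil _
  have hk2 : (k : ℝ) < x / L + 1 := Nat.ceil_lt_add_one (by positivity)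
  rw [div_le_iff₀ hL0] at hk1
  have h1 := hind k τ hτ (by linarith)
  refine h1.trans ?_
  have hlog4 : Real.log 4 ≤ 2 := by
    have h2 : Real.log 4 ≤ Real.log (Real.exp 2) := by
      apply Real.log_le_log (by norm_num)
      have h3 : (2.7 : ℝ) ≤ Real.exp 1 := by
        have := Real.exp_one_gt_d9; linarith
      have h4 : Real.exp 2 = Real.exp 1 * Real.exp 1 := by rw [← Real.exp_add]; norm_num
      rw [h4]
      nlinarith
    rwa [Real.log_exp] at h2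
  have hlog0 : 0 ≤ Real.log 4 := Real.log_nonneg (by norm_num)
  have h2 : ((4 : ℝ) ^ m) ^ k = Real.exp (k * (m * Real.log 4)) := by
    rw [Real.exp_nat_mul, Real.exp_nat_mul, Real.exp_log (by norm_num)]
  rw [h2]
  have h3 : (k : ℝ) * (m * Real.log 4) ≤ m * Real.log 4 + x / 2 := by
    calc (k : ℝ) * (m * Real.log 4) ≤ (x / L + 1) * (m * Real.log 4) := by
          apply mul_le_mul_of_nonneg_right hk2.le (by positivity)
      _ = x * (Real.log 4 / 4) + m * Real.log 4 := by rw [hL]; field_simp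
      _ ≤ x * (1 / 2) + m * Real.log 4 := by
          have h5 : x * (Real.log 4 / 4) ≤ x * (1 / 2) :=
            mul_le_mul_of_nonneg_left (by linarith) hx0
          linarith
      _ = m * Real.log 4 + x / 2 := by ring
  calc N * Real.exp (k * (m * Real.log 4)) ≤ N * Real.exp (m * Real.log 4 + x / 2) := by
        gcongr
    _ = N * Real.exp (m * Real.log 4) * Real.exp (-A₁ / 2) * Real.exp (τ.re / 2) := by
        rw [Real.exp_add, hx, sub_div, sub_eq_add_neg, Real.exp_add, neg_div]; ring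

/-- Growth at an isolated singularity. -/
theorem iso_bound {G H : ℂ → ℂ} {R0 : ℝ} (hGr : Grow G H R0) {κ : ℂ} {Z W : ℂ → ℂ} {c : ℂ} {r : ℝ}
    (hr : 0 < r)
    (hZ : ∀ ζ ∈ ball c r \ {c}, DifferentiableAt ℂ Z ζ)
    (hW : ∀ ζ ∈ ball c r \ {c}, DifferentiableAt ℂ W ζ)
    (hZW : ∀ ζ ∈ ball c r \ {c}, deriv Z ζ * deriv W ζ = 1)
    (hrel : ∀ ζ ∈ ball c r \ {c}, deriv G (Z ζ) * deriv Z ζ - deriv H (W ζ) * deriv W ζ =
      κ * (G (Z ζ) + H (W ζ))) :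
    ∃ C ε : ℝ, 0 ≤ C ∧ 0 < ε ∧ ∀ ζ ∈ ball c ε \ {c},
      ‖Z ζ‖ * ‖ζ - c‖ ≤ C * Real.sqrt ‖ζ - c‖ ∧ ‖W ζ‖ * ‖ζ - c‖ ≤ C * Real.sqrt ‖ζ - c‖ := by
  set A : ℝ := -Real.log r + 1 with hA
  have hmem : ∀ τ : ℂ, A ≤ τ.re → c + exp (-τ) ∈ ball c r \ {c} := by
    intro τ hτ
    refine ⟨?_, ?_⟩
    · rw [mem_ball, dist_eq_norm, add_sub_cancel_left, Complex.norm_exp, neg_re]
      rw [← Real.lt_log_iff_exp_lt hr]
      linarith
    · simp [Complex.exp_ne_zero]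
  have hinner : ∀ τ : ℂ, HasDerivAt (fun τ : ℂ => c + exp (-τ)) (-exp (-τ)) τ := by
    intro τ
    have h1 : HasDerivAt (fun τ : ℂ => -τ) (-1) τ := (hasDerivAt_id τ).neg
    have h2 := (h1.cexp).const_add c
    simpa using h2
  have hdz : ∀ V : ℂ → ℂ, (∀ ζ ∈ ball c r \ {c}, DifferentiableAt ℂ V ζ) → ∀ τ : ℂ, A ≤ τ.re →
      HasDerivAt (fun τ : ℂ => V (c + exp (-τ))) (deriv V (c + exp (-τ)) * (-exp (-τ))) τ := by
    intro V hV τ hτ
    exact ((hV _ (hmem τ hτ)).hasDerivAt).comp τ (hinner τ)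
  have hper : ∀ τ : ℂ, exp (-(τ + 2 * Real.pi * I)) = exp (-τ) := by
    intro τ
    rw [neg_add, Complex.exp_add, Complex.exp_neg (2 * Real.pi * I), Complex.exp_two_pi_mul_I]
    simp
  obtain ⟨C, A₁, hC, hb⟩ := tau_growth hGr (κ := κ) (z := fun τ : ℂ => Z (c + exp (-τ)))
    (w := fun τ : ℂ => W (c + exp (-τ))) (φ := fun τ => -exp (-τ)) (A := A)
    (fun τ hτ => (hdz Z hZ τ hτ).differentiableAt) (fun τ hτ => (hdz W hW τ hτ).differentiableAt)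
    (fun τ => by simp only [hper]) (fun τ => by simp only [hper])
    (fun τ hτ => by
      rw [(hdz Z hZ τ hτ).deriv, (hdz W hW τ hτ).deriv]
      refine ⟨by linear_combination (exp (-τ)) ^ 2 * hZW _ (hmem τ hτ), ?_⟩
      rw [norm_neg, Complex.norm_exp, neg_re])
    (fun τ hτ => by
      rw [(hdz Z hZ τ hτ).deriv, (hdz W hW τ hτ).deriv]
      linear_combination (-exp (-τ)) * hrel _ (hmem τ hτ))
  refine ⟨C, Real.exp (-A₁), hC, Real.exp_pos _, fun ζ hζ => ?_⟩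
  have hζc : ζ - c ≠ 0 := sub_ne_zero.2 hζ.2
  have hn0 : 0 < ‖ζ - c‖ := norm_pos_iff.2 hζc
  have h1 : ‖ζ - c‖ < Real.exp (-A₁) := by
    have := hζ.1
    rwa [mem_ball, dist_eq_norm] at this
  set τ : ℂ := -Complex.log (ζ - c) with hτ
  have hre : τ.re = -Real.log ‖ζ - c‖ := by rw [hτ, neg_re, Complex.log_re]
  have h2 : A₁ ≤ τ.re := by
    rw [hre]
    have := (Real.log_lt_iff_lt_exp hn0).2 h1
    linarith
  have h3 := hb τ h2
  have h4 : c + exp (-τ) = ζ := by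
    rw [hτ, neg_neg, Complex.exp_log hζc]; ring
  have h5 : Real.exp (τ.re / 2) * ‖ζ - c‖ = Real.sqrt ‖ζ - c‖ := by
    have e1 : Real.exp (τ.re / 2) = (Real.sqrt ‖ζ - c‖)⁻¹ := by
      rw [hre, neg_div, Real.exp_neg, Real.exp_half, Real.exp_log hn0]
    rw [e1]
    have e2 : Real.sqrt ‖ζ - c‖ ≠ 0 := (Real.sqrt_pos.2 hn0).ne'
    field_simp
    exact (Real.sq_sqrt hn0.le).symm
  simp only [h4] at h3
  have h6 : ∀ x : ℝ, x ≤ C * Real.exp (τ.re / 2) → x * ‖ζ - c‖ ≤ C * Real.sqrt ‖ζ - c‖ := by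
    intro x hx
    rw [← h5]
    nlinarith
  exact ⟨h6 _ ((le_max_left _ _).trans h3), h6 _ ((le_max_right _ _).trans h3)⟩

/-- From the growth bound to an analytic extension. -/
theorem extend_of_bound {Z : ℂ → ℂ} {c : ℂ} {r C ε : ℝ} (hr : 0 < r) (hε : 0 < ε)
    (hZ : ∀ ζ ∈ ball c r \ {c}, DifferentiableAt ℂ Z ζ)
    (hb : ∀ ζ ∈ ball c ε \ {c}, ‖Z ζ‖ * ‖ζ - c‖ ≤ C * Real.sqrt ‖ζ - c‖) :
    ∃ g : ℂ → ℂ, AnalyticAt ℂ g c ∧ ∀ᶠ y in 𝓝[≠] c, g y = Z y := by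
  have ho : (fun z => Z z - Z c) =o[𝓝[≠] c] fun z => (z - c)⁻¹ := by
    rw [Asymptotics.isLittleO_iff]
    intro η hη
    have ht : Tendsto (fun y : ℂ => C * Real.sqrt ‖y - c‖ + ‖Z c‖ * ‖y - c‖) (𝓝[≠] c) (𝓝 0) := by
      have h1 : ContinuousAt (fun y : ℂ => C * Real.sqrt ‖y - c‖ + ‖Z c‖ * ‖y - c‖) c := by
        fun_prop
      have h2 := h1.tendsto
      simp only [sub_self, norm_zero, Real.sqrt_zero, mul_zero, add_zero] at h2
      exact h2.mono_left nhdsWithin_le_nhds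
    filter_upwards [ht.eventually (eventually_lt_nhds hη), self_mem_nhdsWithin,
      nhdsWithin_le_nhds (ball_mem_nhds c hε)] with y h1 h2 h3
    have h4 : 0 < ‖y - c‖ := norm_pos_iff.2 (sub_ne_zero.2 h2)
    rw [norm_inv, ← div_eq_mul_inv, le_div_iff₀ h4]
    have h5 := hb y ⟨h3, h2⟩
    have h6 : ‖Z y - Z c‖ ≤ ‖Z y‖ + ‖Z c‖ := norm_sub_le _ _
    nlinarith
  have hd : DifferentiableOn ℂ Z (ball c r \ {c}) := fun ζ hζ =>
    (hZ ζ hζ).differentiableWithinAt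
  have h1 := Complex.differentiableOn_update_limUnder_of_isLittleO (ball_mem_nhds c hr) hd ho
  refine ⟨_, h1.analyticAt (ball_mem_nhds c hr), ?_⟩
  filter_upwards [self_mem_nhdsWithin] with y hy
  exact Function.update_of_ne hy _ _

end Pool.Agent.Stek
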