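import Mathlib

/-!
# The local lemma: no exponential behaviour at small arc length
-/

open Complex Metric Set Filter Topology

namespace Pool.Agent.Stek

/-- A function dominated by an exponential that attains the bound at the centre of a large disc is
close to the exponential. -/
theorem psi_close {z : ℂ → ℂ} {P : ℝ} (hP : 0 < P) (hz0 : ‖z 0‖ = P)
    (hz : DifferentiableOn ℂ z (ball 0 2000))
    (hzb : ∀ η ∈ ball (0 : ℂ) 2000, ‖z η‖ ≤ 2 * P * Real.exp η.re) {η : ℂ} (hη : ‖η‖ ≤ 10) :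
    ‖z η * exp (-η) / z 0 - 1‖ ≤ 1 / 50 := by
  have hz0' : z 0 ≠ 0 := by rw [← norm_ne_zero_iff, hz0]; exact hP.ne'
  set f : ℂ → ℂ := fun η => z η * exp (-η) / z 0 with hf
  have hf0 : f 0 = 1 := by simp [hf, hz0']
  have hd : DifferentiableOn ℂ f (ball 0 2000) := by
    have h1 : Differentiable ℂ fun η : ℂ => exp (-η) := by fun_prop
    exact (hz.mul h1.differentiableOn).div_const _
  have hb : ∀ η ∈ ball (0 : ℂ) 2000, ‖f η‖ ≤ 2 := by
    intro η hη
    rw [hf]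
    simp only
    rw [norm_div, norm_mul, hz0, Complex.norm_exp, neg_re, div_le_iff₀ hP]
    calc ‖z η‖ * Real.exp (-η.re) ≤ (2 * P * Real.exp η.re) * Real.exp (-η.re) :=
          mul_le_mul_of_nonneg_right (hzb η hη) (Real.exp_pos _).le
      _ = 2 * P := by rw [mul_assoc, ← Real.exp_add]; simp
  have hmaps : MapsTo f (ball 0 2000) (closedBall (f 0) 3) := by
    intro η hη
    rw [mem_closedBall, dist_eq_norm, hf0]
    calc ‖f η - 1‖ ≤ ‖f η‖ + ‖(1 : ℂ)‖ := norm_sub_le _ _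
      _ ≤ 2 + 1 := by rw [norm_one]; linarith [hb η hη]
      _ = 3 := by norm_num
  have hmem : η ∈ ball (0 : ℂ) 2000 := by
    rw [mem_ball_zero_iff]; linarith
  have := Complex.dist_le_div_mul_dist_of_mapsTo_ball hd hmaps hmem
  rw [dist_eq_norm, dist_zero_right, hf0] at this
  calc ‖f η - 1‖ ≤ 3 / 2000 * ‖η‖ := this
    _ ≤ 3 / 2000 * 10 := by gcongr
    _ ≤ 1 / 50 := by norm_num

theorem psi_deriv {z : ℂ → ℂ} {P : ℝ} (hP : 0 < P) (hz0 : ‖z 0‖ = P)
    (hz : DifferentiableOn ℂ z (ball 0 2000))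
    (hzb : ∀ η ∈ ball (0 : ℂ) 2000, ‖z η‖ ≤ 2 * P * Real.exp η.re) {η : ℂ} (hη : ‖η‖ ≤ 9) :
    9 / 10 * (P * Real.exp η.re) ≤ ‖deriv z η‖ := by
  have hz0' : z 0 ≠ 0 := by rw [← norm_ne_zero_iff, hz0]; exact hP.ne'
  set f : ℂ → ℂ := fun η => z η * exp (-η) / z 0 with hf
  have hd : DifferentiableOn ℂ f (ball 0 2000) := by
    have h1 : Differentiable ℂ fun η : ℂ => exp (-η) := by fun_prop
    exact (hz.mul h1.differentiableOn).div_const _
  have hmem : η ∈ ball (0 : ℂ) 2000 := by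
    rw [mem_ball_zero_iff]; linarith
  have hdf : DifferentiableAt ℂ f η := hd.differentiableAt (isOpen_ball.mem_nhds hmem)
  have h1 : ‖deriv f η‖ ≤ 1 / 50 := by
    have h2 : ‖deriv (fun x => f x - 1) η‖ ≤ (1 / 50) / 1 := by
      apply Complex.norm_deriv_le_of_forall_mem_sphere_norm_le one_pos
      · have h3 : DifferentiableOn ℂ (fun x => f x - 1) (closedBall η 1) := by
          apply (hd.sub_const 1).mono
          intro x hx
          rw [mem_closedBall, dist_eq_norm] at hx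
          rw [mem_ball_zero_iff]
          have : ‖x‖ ≤ ‖x - η‖ + ‖η‖ := by simpa using norm_add_le (x - η) η
          linarith
        exact h3.diffContOnCl_ball subset_rfl
      · intro x hx
        rw [mem_sphere, dist_eq_norm] at hx
        apply psi_close hP hz0 hz hzb
        have : ‖x‖ ≤ ‖x - η‖ + ‖η‖ := by simpa using norm_add_le (x - η) η
        linarith
    rw [deriv_sub_const] at h2
    simpa using h2
  have h3 : ‖f η - 1‖ ≤ 1 / 50 := psi_close hP hz0 hz hzb (by linarith)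
  have hzf : z = fun x => z 0 * (f x * exp x) := by
    funext x
    rw [hf]
    simp only
    rw [Complex.exp_neg]
    field_simp
  have h4 : HasDerivAt z (z 0 * (deriv f η * exp η + f η * exp η)) η := by
    have := ((hdf.hasDerivAt).mul (Complex.hasDerivAt_exp η)).const_mul (z 0)
    exact this.congr_of_eventuallyEq (Eventually.of_forall fun x => congrFun hzf x)
  rw [h4.deriv]
  have h5 : z 0 * (deriv f η * exp η + f η * exp η) =
      z 0 * exp η * (1 + (deriv f η + (f η - 1))) := by ring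
  rw [h5, norm_mul, norm_mul, hz0, Complex.norm_exp]
  have h6 : 9 / 10 ≤ ‖(1 : ℂ) + (deriv f η + (f η - 1))‖ := by
    have h7 : ‖(1 : ℂ)‖ - ‖deriv f η + (f η - 1)‖ ≤ ‖(1 : ℂ) + (deriv f η + (f η - 1))‖ := by
      have := norm_sub_norm_le (1 : ℂ) (-(deriv f η + (f η - 1)))
      rwa [norm_neg, sub_neg_eq_add] at this
    have h8 := norm_add_le (deriv f η) (f η - 1)
    rw [norm_one] at h7
    linarith
  calc 9 / 10 * (P * Real.exp η.re) = (P * Real.exp η.re) * (9 / 10) := by ring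
    _ ≤ (P * Real.exp η.re) * ‖(1 : ℂ) + (deriv f η + (f η - 1))‖ := by
        apply mul_le_mul_of_nonneg_left h6; positivity

/-- The function takes every value of modulus `e P` near the centre. -/
theorem psi_surj {z : ℂ → ℂ} {P : ℝ} (hP : 0 < P) (hz0 : ‖z 0‖ = P)
    (hz : DifferentiableOn ℂ z (ball 0 2000))
    (hzb : ∀ η ∈ ball (0 : ℂ) 2000, ‖z η‖ ≤ 2 * P * Real.exp η.re) {zb : ℂ}
    (hzb' : ‖zb‖ = Real.exp 1 * P) : ∃ η, ‖η‖ ≤ 5 ∧ z η = zb := by
  have hz0' : z 0 ≠ 0 := by rw [← norm_ne_zero_iff, hz0]; exact hP.ne'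
  have hzb0 : zb ≠ 0 := by
    rw [← norm_ne_zero_iff, hzb']; positivity
  set τ : ℂ := Complex.log (zb / z 0) with hτ
  have hexp : z 0 * exp τ = zb := by
    rw [hτ, Complex.exp_log (div_ne_zero hzb0 hz0')]
    field_simp
  have hτre : τ.re = 1 := by
    rw [hτ, Complex.log_re, norm_div, hzb', hz0, mul_div_assoc, div_self hP.ne', mul_one,
      Real.log_exp]
  have hτn : ‖τ‖ ≤ 4.5 := by
    calc ‖τ‖ ≤ |τ.re| + |τ.im| := Complex.norm_le_abs_re_add_abs_im τ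
      _ ≤ 1 + Real.pi := by
          rw [hτre, abs_one]
          have : |τ.im| ≤ Real.pi := by
            rw [hτ, Complex.log_im]; exact Complex.abs_arg_le_pi _
          linarith
      _ ≤ 4.5 := by linarith [Real.pi_lt_d2]
  set f : ℂ → ℂ := fun η => z η * exp (-η) / z 0 with hf
  have hzf : ∀ x, z x = z 0 * (f x * exp x) := by
    intro x
    rw [hf]
    simp only
    rw [Complex.exp_neg]
    field_simp
  have hzn : ‖z 0‖ * ‖exp τ‖ = ‖zb‖ := by rw [← norm_mul, hexp]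
  have hc1 : ‖f τ - 1‖ ≤ 1 / 50 := psi_close hP hz0 hz hzb (by linarith)
  have hsph : ∀ x ∈ sphere τ (1 / 2), 19 / 100 * ‖zb‖ ≤ ‖z x - z τ‖ := by
    intro x hx
    rw [mem_sphere, dist_eq_norm] at hx
    set h := x - τ with hh
    have hx' : x = τ + h := by rw [hh]; ring
    have hc2 : ‖f x - 1‖ ≤ 1 / 50 := by
      apply psi_close hP hz0 hz hzb
      have : ‖x‖ ≤ ‖h‖ + ‖τ‖ := by rw [hx', add_comm τ h]; exact norm_add_le _ _
      linarith
    have e1 : z x - z τ = z 0 * exp τ * ((exp h - 1) + (exp h * (f x - 1) - (f τ - 1))) := by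
      rw [hzf x, hzf τ]
      have : exp x = exp τ * exp h := by rw [hx', Complex.exp_add]
      rw [this]; ring
    rw [e1, norm_mul, hexp]
    have e2 : 1 / 4 ≤ ‖exp h - 1‖ := by
      have h1 : ‖exp h - 1 - h‖ ≤ ‖h‖ ^ 2 := Complex.norm_exp_sub_one_sub_id_le (by linarith)
      have h2 : ‖h‖ - ‖exp h - 1 - h‖ ≤ ‖exp h - 1‖ := by
        have h3 : ‖h‖ ≤ ‖exp h - 1‖ + ‖exp h - 1 - h‖ := by
          calc ‖h‖ = ‖(exp h - 1) - (exp h - 1 - h)‖ := by congr 1; ring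
            _ ≤ _ := norm_sub_le _ _
        linarith
      rw [hx] at h1 h2
      norm_num at h1
      linarith
    have e3 : ‖exp h‖ ≤ 2 := by
      have h1 : ‖exp h - 1 - h‖ ≤ ‖h‖ ^ 2 := Complex.norm_exp_sub_one_sub_id_le (by linarith)
      have h3 : ‖exp h‖ ≤ ‖exp h - 1 - h‖ + ‖1 + h‖ := by
        calc ‖exp h‖ = ‖(exp h - 1 - h) + (1 + h)‖ := by congr 1; ring
          _ ≤ _ := norm_add_le _ _
      have h4 : ‖1 + h‖ ≤ 1 + ‖h‖ := by simpa using norm_add_le (1 : ℂ) h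
      rw [hx] at h1 h4
      norm_num at h1 h4
      linarith
    have e4 : ‖exp h * (f x - 1) - (f τ - 1)‖ ≤ 3 / 50 := by
      calc ‖exp h * (f x - 1) - (f τ - 1)‖ ≤ ‖exp h * (f x - 1)‖ + ‖f τ - 1‖ := norm_sub_le _ _
        _ ≤ 2 * (1 / 50) + 1 / 50 := by
            rw [norm_mul]
            gcongr
        _ = 3 / 50 := by norm_num
    have e5 : 19 / 100 ≤ ‖(exp h - 1) + (exp h * (f x - 1) - (f τ - 1))‖ := by
      have h3 : ‖exp h - 1‖ ≤ ‖(exp h - 1) + (exp h * (f x - 1) - (f τ - 1))‖ +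
          ‖exp h * (f x - 1) - (f τ - 1)‖ := by
        calc ‖exp h - 1‖ = ‖((exp h - 1) + (exp h * (f x - 1) - (f τ - 1))) -
            (exp h * (f x - 1) - (f τ - 1))‖ := by congr 1; ring
          _ ≤ _ := norm_sub_le _ _
      linarith
    rw [mul_comm]
    exact mul_le_mul_of_nonneg_left e5 (norm_nonneg _)
  have hsub : ∀ x ∈ closedBall τ (1 / 2), x ∈ ball (0 : ℂ) 2000 := by
    intro x hx
    rw [mem_closedBall, dist_eq_norm] at hx
    rw [mem_ball_zero_iff]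
    have : ‖x‖ ≤ ‖x - τ‖ + ‖τ‖ := by simpa using norm_add_le (x - τ) τ
    linarith
  have hdc : DiffContOnCl ℂ z (ball τ (1 / 2)) :=
    (hz.mono hsub).diffContOnCl_ball subset_rfl
  have hfr : ∃ᶠ x in 𝓝 τ, z x ≠ z τ := by
    have hmem : τ ∈ ball (0 : ℂ) 2000 := by rw [mem_ball_zero_iff]; linarith
    have h1 : HasDerivAt z (deriv z τ) τ :=
      (hz.differentiableAt (isOpen_ball.mem_nhds hmem)).hasDerivAt
    have h2 : deriv z τ ≠ 0 := by
      rw [← norm_pos_iff]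
      refine lt_of_lt_of_le ?_ (psi_deriv hP hz0 hz hzb (η := τ) (by linarith))
      positivity
    have h3 := h1.eventually_ne h2 (c := z τ)
    exact (h3.frequently).filter_mono nhdsWithin_le_nhds
  have himg := hdc.ball_subset_image_closedBall (by norm_num) hsph hfr
  have hin : zb ∈ ball (z τ) (19 / 100 * ‖zb‖ / 2) := by
    rw [mem_ball, dist_eq_norm]
    have e1 : zb - z τ = - (zb * (f τ - 1)) := by
      rw [hzf τ, ← hexp]; ring
    rw [e1, norm_neg, norm_mul]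
    have hpos : 0 < ‖zb‖ := norm_pos_iff.2 hzb0
    nlinarith
  obtain ⟨η, hη, hzη⟩ := himg hin
  refine ⟨η, ?_, hzη⟩
  rw [mem_closedBall, dist_eq_norm] at hη
  have : ‖η‖ ≤ ‖η - τ‖ + ‖τ‖ := by simpa using norm_add_le (η - τ) τ
  linarith

/-- The local lemma: over a small arc length `z` runs from modulus `P` to modulus `e P`, while `w`
stays smaller than `P`; so `G` cannot grow. -/
theorem local_lemma {G H z w φ : ℂ → ℂ} {κ : ℂ} {P B δ : ℝ} (hG : Differentiable ℂ G)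
    (hH : Differentiable ℂ H) (hP : 1000000 ≤ P) (hδ1 : δ ≤ 1)
    (hδκ : 50 * (‖κ‖ * δ) ≤ 1)
    (hz0 : ‖z 0‖ = P) (hz : DifferentiableOn ℂ z (ball 0 2000))
    (hw : DifferentiableOn ℂ w (ball 0 2000))
    (hzb : ∀ η ∈ ball (0 : ℂ) 2000, ‖z η‖ ≤ 2 * P * Real.exp η.re)
    (hwb : ∀ η ∈ ball (0 : ℂ) 2000, ‖w η‖ ≤ 2 * P * Real.exp η.re)
    (hφ : ∀ η ∈ ball (0 : ℂ) 2000, deriv z η * deriv w η = φ η ^ 2 ∧ ‖φ η‖ ≤ δ)
    (hrel : ∀ η ∈ ball (0 : ℂ) 2000, deriv G (z η) * deriv z η - deriv H (w η) * deriv w η =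
      κ * φ η * (G (z η) + H (w η)))
    (hBG : ∀ x, ‖x‖ ≤ P → ‖G x‖ ≤ B) (hBH : ∀ x, ‖x‖ ≤ P → ‖H x‖ ≤ B)
    {zb : ℂ} (hzb' : ‖zb‖ = Real.exp 1 * P) : ‖G zb‖ ≤ 2 * B := by
  have hP0 : 0 < P := by linarith
  have hB0 : 0 ≤ B := (norm_nonneg _).trans (hBG (z 0) hz0.le)
  have hmem : ∀ η : ℂ, ‖η‖ ≤ 9 → η ∈ ball (0 : ℂ) 2000 := fun η hη => by
    rw [mem_ball_zero_iff]; linarith
  have hzd : ∀ η : ℂ, ‖η‖ ≤ 9 → DifferentiableAt ℂ z η := fun η hη =>
    hz.differentiableAt (isOpen_ball.mem_nhds (hmem η hη))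
  have hwd : ∀ η : ℂ, ‖η‖ ≤ 9 → DifferentiableAt ℂ w η := fun η hη =>
    hw.differentiableAt (isOpen_ball.mem_nhds (hmem η hη))
  have he9 : Real.exp (-9) ≤ 1 / 4000 := by
    have h1 : (2.7 : ℝ) ≤ Real.exp 1 := by
      have := Real.exp_one_gt_d9; linarith
    have h2 : (4000 : ℝ) ≤ Real.exp 9 := by
      have h3 : Real.exp 9 = Real.exp 1 ^ 9 := by rw [← Real.exp_nat_mul]; norm_num
      rw [h3]
      calc (4000 : ℝ) ≤ 2.7 ^ 9 := by norm_num
        _ ≤ Real.exp 1 ^ 9 := by gcongr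
    rw [Real.exp_neg]
    rw [one_div]
    exact inv_anti₀ (by norm_num) h2
  have he9' : 1 / 10000 ≤ Real.exp (-9) := by
    have h1 : Real.exp 1 ≤ 2.72 := by
      have := Real.exp_one_lt_d9; linarith
    have h2 : Real.exp 9 ≤ 10000 := by
      have h3 : Real.exp 9 = Real.exp 1 ^ 9 := by rw [← Real.exp_nat_mul]; norm_num
      rw [h3]
      calc Real.exp 1 ^ 9 ≤ 2.72 ^ 9 := by gcongr
        _ ≤ 10000 := by norm_num
    rw [Real.exp_neg, one_div]
    exact inv_anti₀ (Real.exp_pos _) h2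
  -- lower bound for `z'`
  have hz' : ∀ η : ℂ, ‖η‖ ≤ 9 → 90 ≤ ‖deriv z η‖ := by
    intro η hη
    have h1 := psi_deriv hP0 hz0 hz hzb hη
    have h2 : Real.exp (-9) ≤ Real.exp η.re := by
      apply Real.exp_le_exp.2
      have := Complex.abs_re_le_norm η
      have := neg_abs_le η.re
      linarith
    have h3 : 1000000 * (1 / 10000) ≤ P * Real.exp η.re := by
      have : (1 : ℝ) / 10000 ≤ Real.exp η.re := he9'.trans h2
      exact mul_le_mul hP this (by norm_num) hP0.le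
    linarith
  have hw' : ∀ η : ℂ, ‖η‖ ≤ 9 → ‖deriv w η‖ ≤ 1 / 90 := by
    intro η hη
    obtain ⟨h1, h2⟩ := hφ η (hmem η hη)
    have h3 : ‖deriv z η‖ * ‖deriv w η‖ ≤ 1 := by
      rw [← norm_mul, h1, norm_pow]
      exact pow_le_one₀ (norm_nonneg _) (h2.trans hδ1)
    have h4 := hz' η hη
    have h5 : 90 * ‖deriv w η‖ ≤ ‖deriv z η‖ * ‖deriv w η‖ :=
      mul_le_mul_of_nonneg_right h4 (norm_nonneg _)
    linarith
  -- `w` is small
  have hwsmall : ∀ η : ℂ, ‖η‖ ≤ 9 → ‖w η‖ + 1 ≤ P := by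
    intro η hη
    have h9 : ‖(-9 : ℂ)‖ ≤ 9 := by rw [norm_neg]; norm_num
    have h1 : ‖w η - w (-9)‖ ≤ 1 / 90 * ‖η - (-9)‖ := by
      apply (convex_closedBall (0 : ℂ) 9).norm_image_sub_le_of_norm_deriv_le (𝕜 := ℂ)
        (fun x hx => hwd x (mem_closedBall_zero_iff.1 hx))
        (fun x hx => hw' x (mem_closedBall_zero_iff.1 hx))
      · exact mem_closedBall_zero_iff.2 h9
      · exact mem_closedBall_zero_iff.2 hη
    have h2 : ‖η - (-9)‖ ≤ 18 := by
      calc ‖η - (-9)‖ ≤ ‖η‖ + ‖(-9 : ℂ)‖ := norm_sub_le _ _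
        _ ≤ 18 := by linarith
    have h3 : ‖w (-9)‖ ≤ 2 * P * Real.exp (-9) := by
      have := hwb (-9) (hmem _ h9)
      simpa using this
    have h4 : ‖w η‖ ≤ ‖w η - w (-9)‖ + ‖w (-9)‖ := by
      simpa using norm_add_le (w η - w (-9)) (w (-9))
    have h5 : 2 * P * Real.exp (-9) ≤ 2 * P * (1 / 4000) := by gcongr
    linarith
  -- the remainder
  set R : ℂ → ℂ := fun η => deriv H (w η) * deriv w η + κ * φ η * H (w η) with hR
  have hRb : ∀ η : ℂ, ‖η‖ ≤ 9 → ‖R η‖ ≤ 1 / 25 * B := by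
    intro η hη
    have h1 : ‖deriv H (w η)‖ ≤ B / 1 := by
      apply Complex.norm_deriv_le_of_forall_mem_sphere_norm_le one_pos hH.diffContOnCl
      intro x hx
      apply hBH
      rw [mem_sphere, dist_eq_norm] at hx
      have : ‖x‖ ≤ ‖x - w η‖ + ‖w η‖ := by simpa using norm_add_le (x - w η) (w η)
      linarith [hwsmall η hη]
    rw [div_one] at h1
    have h2 : ‖H (w η)‖ ≤ B := hBH _ (by linarith [hwsmall η hη])
    have h3 := (hφ η (hmem η hη)).2
    have h4 : ‖κ‖ * ‖φ η‖ ≤ 1 / 50 := by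
      have : ‖κ‖ * ‖φ η‖ ≤ ‖κ‖ * δ := by gcongr
      linarith
    calc ‖R η‖ ≤ ‖deriv H (w η) * deriv w η‖ + ‖κ * φ η * H (w η)‖ := norm_add_le _ _
      _ = ‖deriv H (w η)‖ * ‖deriv w η‖ + ‖κ‖ * ‖φ η‖ * ‖H (w η)‖ := by
          rw [norm_mul, norm_mul, norm_mul]
      _ ≤ B * (1 / 90) + 1 / 50 * B := by
          gcongr
          exact hw' η hη
      _ ≤ 1 / 25 * B := by linarith
  obtain ⟨ηb, hηb, hzηb⟩ := psi_surj hP0 hz0 hz hzb hzb'
  -- the function along the segment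
  set f : ℝ → ℂ := fun t => G (z (t * ηb)) with hf
  have hseg : ∀ t : ℝ, t ∈ Icc (0 : ℝ) 1 → ‖(t : ℂ) * ηb‖ ≤ 9 := by
    intro t ht
    rw [norm_mul, Complex.norm_real, Real.norm_eq_abs, abs_of_nonneg ht.1]
    nlinarith [ht.1, ht.2, norm_nonneg ηb]
  have hfd : ∀ t ∈ Icc (0 : ℝ) 1, HasDerivAt f
      (ηb * (κ * φ (t * ηb) * f t + R (t * ηb))) t := by
    intro t ht
    have h9 := hseg t ht
    have h1 : HasDerivAt (fun t : ℝ => (t : ℂ) * ηb) ηb t := by
      simpa using (Complex.ofRealCLM.hasDerivAt (x := t)).mul_const ηb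
    have h2 : HasDerivAt z (deriv z (t * ηb)) ((fun t : ℝ => (t : ℂ) * ηb) t) :=
      (hzd _ h9).hasDerivAt
    have h3 : HasDerivAt (fun x => G (z x)) (deriv G (z (t * ηb)) * deriv z (t * ηb))
        ((fun t : ℝ => (t : ℂ) * ηb) t) :=
      ((hG (z (t * ηb))).hasDerivAt).comp _ h2
    have h4 := h3.scomp t h1
    have h5 := hrel _ (hmem _ h9)
    have h6 : ηb * (κ * φ (t * ηb) * f t + R (t * ηb)) =
        ηb • (deriv G (z (t * ηb)) * deriv z (t * ηb)) := by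
      show ηb * (κ * φ (t * ηb) * G (z (t * ηb)) + (deriv H (w (t * ηb)) * deriv w (t * ηb) +
        κ * φ (t * ηb) * H (w (t * ηb)))) = ηb * (deriv G (z (t * ηb)) * deriv z (t * ηb))
      linear_combination -ηb * h5
    rw [h6]
    exact h4
  have hfc : ContinuousOn f (Icc 0 1) := fun t ht => (hfd t ht).continuousAt.continuousWithinAt
  obtain ⟨tm, htm, hmax⟩ := isCompact_Icc.exists_isMaxOn (nonempty_Icc.2 zero_le_one)
    (hfc.norm)
  set S := ‖f tm‖ with hS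
  have hfder : ∀ t ∈ Icc (0 : ℝ) 1, ‖ηb * (κ * φ (t * ηb) * f t + R (t * ηb))‖ ≤
      5 * (1 / 50 * S + 1 / 25 * B) := by
    intro t ht
    have h9 := hseg t ht
    have h3 := (hφ _ (hmem _ h9)).2
    have h4 : ‖κ‖ * ‖φ (t * ηb)‖ ≤ 1 / 50 := by
      have : ‖κ‖ * ‖φ (t * ηb)‖ ≤ ‖κ‖ * δ := by gcongr
      linarith
    rw [norm_mul]
    apply mul_le_mul hηb _ (norm_nonneg _) (by norm_num)
    calc ‖κ * φ (t * ηb) * f t + R (t * ηb)‖ ≤ ‖κ * φ (t * ηb) * f t‖ + ‖R (t * ηb)‖ :=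
          norm_add_le _ _
      _ ≤ 1 / 50 * S + 1 / 25 * B := by
          rw [norm_mul, norm_mul]
          exact add_le_add (mul_le_mul h4 (hmax ht) (norm_nonneg _) (by norm_num)) (hRb _ h9)
  have hmv : ‖f tm - f 0‖ ≤ 5 * (1 / 50 * S + 1 / 25 * B) * (tm - 0) := by
    apply norm_image_sub_le_of_norm_deriv_le_segment' (f := f)
      (f' := fun t => ηb * (κ * φ (t * ηb) * f t + R (t * ηb))) (a := 0) (b := 1)
    · intro t ht
      exact (hfd t ht).hasDerivWithinAt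
    · intro t ht
      exact hfder t ⟨ht.1, ht.2.le⟩
    · exact htm
  have hf0 : ‖f 0‖ ≤ B := by
    have h0 : f 0 = G (z 0) := by
      show G (z (((0 : ℝ) : ℂ) * ηb)) = G (z 0)
      rw [Complex.ofReal_zero, zero_mul]
    rw [h0]
    exact hBG _ hz0.le
  have hS0 : 0 ≤ S := norm_nonneg _
  have h1 : S ≤ B + 5 * (1 / 50 * S + 1 / 25 * B) := by
    have h2 : ‖f tm‖ ≤ ‖f tm - f 0‖ + ‖f 0‖ := by simpa using norm_add_le (f tm - f 0) (f 0)
    have h3 : 5 * (1 / 50 * S + 1 / 25 * B) * (tm - 0) ≤ 5 * (1 / 50 * S + 1 / 25 * B) * 1 := by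
      apply mul_le_mul_of_nonneg_left _ (by positivity)
      linarith [htm.2]
    rw [← hS] at h2
    linarith
  have h2 : ‖f 1‖ ≤ S := hmax (right_mem_Icc.2 zero_le_one)
  have h3 : f 1 = G zb := by
    show G (z (((1 : ℝ) : ℂ) * ηb)) = G zb
    rw [Complex.ofReal_one, one_mul, hzηb]
  rw [h3] at h2
  linarith

end Pool.Agent.Stek
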