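import Pool.Agent.Lib.MP_bd8415_an.Arclen.Ent
import Pool.Agent.Lib.MP_bd8415_an.Arclen.Inf
import Pool.Agent.Lib.MP_bd8415_an.CsArc

/-!
# One boundary arc with an arc length parametrisation with countably many singularities
-/

open Complex Metric Set Filter Topology Bornology

namespace Pool.Agent.Stek

/-- The relation at a boundary point, arc length parametrisation. -/
theorem rel_line {ρ : ℂ → ℝ} (hρ : Differentiable ℝ ρ)
    (hgrad : ∀ z, ρ z = 0 → fderiv ℝ ρ z ≠ 0) {G : ℂ → ℂ} (hG : Differentiable ℂ G) {σ : ℝ}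
    (hbc : ∀ z, ρ z = 0 → (deriv G z * grad ρ z).re = σ * (G z).re * ‖grad ρ z‖)
    {Z : ℂ → ℂ} {t : ℝ} (hZ : DifferentiableAt ℂ Z t)
    (hpar : ∀ᶠ s : ℝ in 𝓝 t, ρ (Z s) = 0 ∧ ‖deriv Z s‖ = 1) :
    (deriv G (Z t) * deriv Z t - deriv (sh G) (sh Z t) * deriv (sh Z) t) ^ 2 =
      (-(σ : ℂ) ^ 2) * (G (Z t) + sh G (sh Z t)) ^ 2 ∧ deriv Z t * deriv (sh Z) t = 1 := by
  have h0 := hpar.self_of_nhds
  have hρz : ρ (Z t) = 0 := h0.1
  have hconjt : (starRingEnd ℂ) (t : ℂ) = t := Complex.conj_ofReal t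
  have hshd : deriv (sh Z) t = (starRingEnd ℂ) (deriv Z t) := by
    have h1 : HasDerivAt Z (deriv Z t) ((starRingEnd ℂ) (t : ℂ)) := by
      rw [hconjt]; exact hZ.hasDerivAt
    exact (sh_hasDerivAt h1).deriv
  have hshZ : sh Z t = (starRingEnd ℂ) (Z t) := by rw [sh, hconjt]
  set y := deriv Z t with hy
  have hy1 : y * (starRingEnd ℂ) y = 1 := by
    rw [Complex.mul_conj, Complex.normSq_eq_norm_sq, h0.2]; simp
  -- tangency
  have htan0 : (grad ρ (Z t)).re * y.re + (grad ρ (Z t)).im * y.im = 0 := by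
    have h6 : HasFDerivAt ρ (fderiv ℝ ρ (Z t)) ((fun s : ℝ => Z s) t) := (hρ (Z t)).hasFDerivAt
    have h5 : HasDerivAt (fun s : ℝ => Z s) y t := hZ.hasDerivAt.comp_ofReal
    have h7 := h6.comp_hasDerivAt t h5
    have h8 : (ρ ∘ fun s : ℝ => Z s) =ᶠ[𝓝 t] fun _ => (0 : ℝ) := hpar.mono fun s hs => hs.1
    have h9 := h7.unique ((hasDerivAt_const t (0 : ℝ)).congr_of_eventuallyEq h8)
    rw [fderiv_eq_grad] at h9
    linarith
  set x := -I * y with hx
  have htan : (grad ρ (Z t)).re * x.im = (grad ρ (Z t)).im * x.re := by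
    have e1 : x.im = -y.re := by simp [hx]
    have e2 : x.re = y.im := by simp [hx]
    rw [e1, e2]
    linarith
  have hg := grad_ne_zero (hgrad (Z t) hρz)
  have hb := hbc (Z t) hρz
  set g := grad ρ (Z t) with hgdef
  obtain ⟨μ, hμ⟩ := exists_mu hg htan
  have hyμ : y = I * (μ * g) := by
    rw [← hμ, hx]
    linear_combination y * I_mul_I
  have e2 : deriv (sh G) (sh Z t) = (starRingEnd ℂ) (deriv G (Z t)) := by
    rw [deriv_sh hG, hshZ, Complex.conj_conj]
  have e2' : sh G (sh Z t) = (starRingEnd ℂ) (G (Z t)) := by rw [hshZ, sh, Complex.conj_conj]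
  have e3 : deriv G (Z t) * y - (starRingEnd ℂ) (deriv G (Z t)) * (starRingEnd ℂ) y =
      I * ((2 * μ * (deriv G (Z t) * g).re : ℝ) : ℂ) := by
    have : deriv G (Z t) * y - (starRingEnd ℂ) (deriv G (Z t)) * (starRingEnd ℂ) y =
        I * (μ * (deriv G (Z t) * g + (starRingEnd ℂ) (deriv G (Z t) * g))) := by
      rw [hyμ, map_mul, map_mul, map_mul, Complex.conj_ofReal, Complex.conj_I]; ring
    rw [this, Complex.add_conj]
    push_cast
    ring
  have e4 : G (Z t) + (starRingEnd ℂ) (G (Z t)) = ((2 * (G (Z t)).re : ℝ) : ℂ) :=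
    Complex.add_conj _
  have e5 : ((μ ^ 2 * ‖g‖ ^ 2 : ℝ) : ℂ) = 1 := by
    have h1 : g * (starRingEnd ℂ) g = ((‖g‖ ^ 2 : ℝ) : ℂ) := by
      rw [Complex.mul_conj, Complex.normSq_eq_norm_sq]
    rw [← hy1, hyμ, map_mul, map_mul, Complex.conj_ofReal, Complex.conj_I]
    push_cast at h1 ⊢
    linear_combination -(μ : ℂ) ^ 2 * h1 + (μ : ℂ) ^ 2 * g * (starRingEnd ℂ) g * I_mul_I
  refine ⟨?_, by rw [hshd]; exact hy1⟩
  rw [hshd, e2, e2', e3, e4, hb]
  push_cast at e5 ⊢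
  linear_combination (-(σ : ℂ) ^ 2 * (2 * ((G (Z t)).re : ℂ)) ^ 2) * e5 +
    (2 * (μ : ℂ) * ((σ : ℂ) * ((G (Z t)).re : ℂ) * (‖g‖ : ℂ))) ^ 2 * I_mul_I

/-- Real points accumulate at each real point. -/
theorem real_frequently_at {t : ℝ} {P : ℂ → Prop} (h : ∀ᶠ s : ℝ in 𝓝 t, P s) :
    ∃ᶠ w in 𝓝[≠] (t : ℂ), P w := by
  have h2 : HasDerivAt (fun s : ℝ => (s : ℂ)) 1 t := Complex.ofRealCLM.hasDerivAt
  have h3 := h2.tendsto_nhdsNE one_ne_zero
  apply h3.frequently
  apply Eventually.frequently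
  exact h.filter_mono nhdsWithin_le_nhds

theorem grow_sh {G : ℂ → ℂ} (hG : Differentiable ℂ G) (hnc : ¬ ∃ b, ∀ z, G z = b) :
    ∃ R0, Grow G (sh G) R0 := by
  have hnc' : ¬ ∃ b, ∀ z, sh G z = b := by
    rintro ⟨b, hb⟩
    apply hnc
    refine ⟨(starRingEnd ℂ) b, fun z => ?_⟩
    have := hb ((starRingEnd ℂ) z)
    rw [sh, Complex.conj_conj] at this
    rw [← this, Complex.conj_conj]
  obtain ⟨R1, -, h1⟩ := grow_G hG hnc
  obtain ⟨R2, -, h2⟩ := grow_G (sh_differentiable hG) hnc'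
  refine ⟨max R1 R2, hG, sh_differentiable hG, fun P hP => h1 P ((le_max_left _ _).trans hP),
    fun P hP => h2 P ((le_max_right _ _).trans hP), fun P B hB x hx => ?_, fun P B hB x hx => ?_⟩
  · rw [sh, Complex.norm_conj]
    exact hB _ (by rwa [Complex.norm_conj])
  · have := hB ((starRingEnd ℂ) x) (by rwa [Complex.norm_conj])
    rwa [sh, Complex.conj_conj, Complex.norm_conj] at this

/-- The main theorem: an arc length parametrisation of one boundary arc which extends to the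
plane minus a countable closed set. -/
theorem arclen_arc {ρ : ℂ → ℝ} (hρ : ContDiff ℝ 2 ρ)
    (hgrad : ∀ z : ℂ, ρ z = 0 → fderiv ℝ ρ z ≠ 0)
    (hbdd : Bornology.IsBounded {z : ℂ | ρ z < 0})
    (hconn : IsConnected {z : ℂ | ρ z < 0})
    {Z : ℂ → ℂ} {E : Set ℂ} (hE : IsClosed E) (hEc : E.Countable) (h0E : (0 : ℂ) ∉ E)
    (hZ : DifferentiableOn ℂ Z Eᶜ)
    (harc : ∀ᶠ t : ℝ in 𝓝 0, ρ (Z t) = 0 ∧ ‖deriv Z t‖ = 1)
    (hcurv : ∃ᶠ t : ℝ in 𝓝 0, deriv Z t ≠ deriv Z 0) {G : ℂ → ℂ} (hG : Differentiable ℂ G) {σ : ℝ}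
    (hbc' : ∀ z, ρ z = 0 → (deriv G z * grad ρ z).re = σ * (G z).re * ‖grad ρ z‖)
    (hne' : ∃ z w, ρ z < 0 ∧ ρ w < 0 ∧ (G z).re ≠ (G w).re) :
    ∃ (z₀ : ℂ) (r : ℝ), {z : ℂ | ρ z < 0} = Metric.ball z₀ r := by
  have hρd : Differentiable ℝ ρ := hρ.differentiable two_ne_zero
  have hGd := deriv_differentiable hG
  have hsG := sh_differentiable hG
  have hsGd : Differentiable ℂ (deriv (sh G)) := deriv_differentiable hsG
  have hGnc : ¬ ∃ b, ∀ z, G z = b := by
    rintro ⟨b, hb⟩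
    obtain ⟨z, w, -, -, h3⟩ := hne'
    exact h3 (by rw [hb z, hb w])
  obtain ⟨R0, hGr⟩ := grow_sh hG hGnc
  -- the exceptional set
  set F : Set ℂ := E ∪ (starRingEnd ℂ) ⁻¹' E with hF
  have hFcl : IsClosed F := hE.union (hE.preimage Complex.continuous_conj)
  have hFc : F.Countable := hEc.union (hEc.preimage (RingHom.injective _))
  have n1 : ∀ z, z ∉ F → z ∉ E := fun z hz h => hz (Or.inl h)
  have n2 : ∀ z, z ∉ F → (starRingEnd ℂ) z ∉ E := fun z hz h => hz (Or.inr h)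
  have h0F : (0 : ℂ) ∈ Fᶜ := by
    rintro (h | h)
    · exact h0E h
    · rw [mem_preimage, map_zero] at h; exact h0E h
  have hZa : ∀ z, z ∉ E → AnalyticAt ℂ Z z := fun z hz =>
    hZ.analyticAt (hE.isOpen_compl.mem_nhds hz)
  have hWd : DifferentiableOn ℂ (sh Z) Fᶜ := by
    intro z hz
    exact (sh_hasDerivAt (hZa _ (n2 z hz)).differentiableAt.hasDerivAt).differentiableAt
      |>.differentiableWithinAt
  have hWa : ∀ z, z ∉ F → AnalyticAt ℂ (sh Z) z := fun z hz =>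
    hWd.analyticAt (hFcl.isOpen_compl.mem_nhds hz)
  have hpre := preconn_compl hFc
  -- near `0`
  have hnear : ∀ᶠ t : ℝ in 𝓝 0, (t : ℂ) ∉ F ∧ ∀ᶠ s : ℝ in 𝓝 t, ρ (Z s) = 0 ∧
      ‖deriv Z s‖ = 1 := by
    have h1 : ∀ᶠ t : ℝ in 𝓝 0, (t : ℂ) ∈ Fᶜ := by
      have h2 : Tendsto (fun t : ℝ => (t : ℂ)) (𝓝 0) (𝓝 0) := by
        simpa using Complex.continuous_ofReal.tendsto 0
      exact h2.eventually (hFcl.isOpen_compl.mem_nhds h0F)
    filter_upwards [h1, harc.eventually_nhds] with t a b using ⟨a, b⟩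
  have hreal := hnear.mono fun t ht => rel_line hρd hgrad hG hbc'
    (hZa t (n1 _ ht.1)).differentiableAt ht.2
  have a5 : AnalyticOnNhd ℂ (deriv Z) Fᶜ := fun z hz => (hZa z (n1 z hz)).deriv
  have a6 : AnalyticOnNhd ℂ (deriv (sh Z)) Fᶜ := fun z hz => (hWa z hz).deriv
  have a1 : AnalyticOnNhd ℂ (fun z => G (Z z)) Fᶜ := fun z hz =>
    (hG.analyticAt (Z z)).fun_comp (hZa z (n1 z hz))
  have a2 : AnalyticOnNhd ℂ (fun z => sh G (sh Z z)) Fᶜ := fun z hz =>
    (hsG.analyticAt (sh Z z)).fun_comp (hWa z hz)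
  have a3 : AnalyticOnNhd ℂ (fun z => deriv G (Z z)) Fᶜ := fun z hz =>
    (hGd.analyticAt (Z z)).fun_comp (hZa z (n1 z hz))
  have a4 : AnalyticOnNhd ℂ (fun z => deriv (sh G) (sh Z z)) Fᶜ := fun z hz =>
    (hsGd.analyticAt (sh Z z)).fun_comp (hWa z hz)
  have aX : AnalyticOnNhd ℂ (fun z => deriv G (Z z) * deriv Z z -
      deriv (sh G) (sh Z z) * deriv (sh Z) z) Fᶜ := (a3.mul a5).sub (a4.mul a6)
  have aY : AnalyticOnNhd ℂ (fun z => G (Z z) + sh G (sh Z z)) Fᶜ := a1.add a2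
  -- arc length
  have hZW : ∀ ζ, ζ ∉ F → deriv Z ζ * deriv (sh Z) ζ = 1 := by
    have h1 := (a5.mul a6).eqOn_of_preconnected_of_frequently_eq
      (analyticOnNhd_const (v := (1 : ℂ))) hpre h0F (by
        have := real_frequently_at (t := 0) (P := fun w => deriv Z w * deriv (sh Z) w = 1)
          (hreal.mono fun t ht => ht.2)
        simpa using this)
    intro ζ hζ
    exact h1 hζ
  -- the relation
  have hprod : EqOn (fun z => ((deriv G (Z z) * deriv Z z -
      deriv (sh G) (sh Z z) * deriv (sh Z) z) - (I * σ) * (G (Z z) + sh G (sh Z z))) *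
      ((deriv G (Z z) * deriv Z z -
      deriv (sh G) (sh Z z) * deriv (sh Z) z) + (I * σ) * (G (Z z) + sh G (sh Z z))))
      (fun _ => 0) Fᶜ := by
    have cc : AnalyticOnNhd ℂ (fun _ : ℂ => (I * σ : ℂ)) Fᶜ := analyticOnNhd_const
    apply ((aX.sub (cc.mul aY)).mul (aX.add (cc.mul aY))).eqOn_of_preconnected_of_frequently_eq
      analyticOnNhd_const hpre h0F
    have := real_frequently_at (t := 0) (P := fun z => ((deriv G (Z z) * deriv Z z -
      deriv (sh G) (sh Z z) * deriv (sh Z) z) - (I * σ) * (G (Z z) + sh G (sh Z z))) *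
      ((deriv G (Z z) * deriv Z z -
      deriv (sh G) (sh Z z) * deriv (sh Z) z) + (I * σ) * (G (Z z) + sh G (sh Z z))) = 0)
      (hreal.mono fun t ht => by
        have h1 := ht.1
        linear_combination h1 - (σ : ℂ) ^ 2 * (G (Z t) + sh G (sh Z t)) ^ 2 * I_mul_I)
    simpa using this
  have hκ : ∃ κ : ℂ, ∀ ζ, ζ ∉ F → deriv G (Z ζ) * deriv Z ζ -
      deriv (sh G) (sh Z ζ) * deriv (sh Z) ζ = κ * (G (Z ζ) + sh G (sh Z ζ)) := by
    have cc : AnalyticOnNhd ℂ (fun _ : ℂ => (I * σ : ℂ)) Fᶜ := analyticOnNhd_const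
    have aM := aX.sub (cc.mul aY)
    have aP := aX.add (cc.mul aY)
    rcases (aM 0 h0F).eventually_eq_zero_or_eventually_ne_zero with h | h
    · refine ⟨I * σ, fun ζ hζ => ?_⟩
      have := aM.eqOn_zero_of_preconnected_of_eventuallyEq_zero hpre h0F h hζ
      exact sub_eq_zero.1 this
    · refine ⟨-(I * σ), fun ζ hζ => ?_⟩
      have h2 : ∃ᶠ z in 𝓝[≠] (0 : ℂ), (deriv G (Z z) * deriv Z z -
          deriv (sh G) (sh Z z) * deriv (sh Z) z) + (I * σ) * (G (Z z) + sh G (sh Z z)) = 0 := by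
        apply Eventually.frequently
        filter_upwards [h, nhdsWithin_le_nhds (hFcl.isOpen_compl.mem_nhds h0F)] with z h3 h4
        exact (mul_eq_zero.1 (hprod h4)).resolve_left h3
      have h5 := aP.eqOn_of_preconnected_of_frequently_eq
        (analyticOnNhd_const (v := (0 : ℂ))) hpre h0F h2 hζ
      have h6 : (deriv G (Z ζ) * deriv Z ζ -
          deriv (sh G) (sh Z ζ) * deriv (sh Z) ζ) + (I * σ) * (G (Z ζ) + sh G (sh Z ζ)) = 0 := h5
      linear_combination h6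
  obtain ⟨κ, hκ⟩ := hκ
  obtain ⟨Ze, We, hZe, hWe, hagree, hent⟩ := ent_ext hGr hFc hFcl
    (hZ.mono fun z hz => n1 z hz) hWd hZW hκ
  obtain ⟨C, c, hC, hc, hgr⟩ := inf_growth hGr hZe hWe (fun ζ => (hent ζ).1)
    (fun ζ => (hent ζ).2)
  have hZed : Differentiable ℂ (deriv Ze) := deriv_differentiable hZe
  have hbd : ∀ ζ, ‖deriv Ze ζ‖ ≤ (C * Real.exp c) * Real.exp (c * ‖ζ‖) := by
    intro ζ
    have h1 : ‖deriv Ze ζ‖ ≤ ((C * Real.exp c) * Real.exp (c * ‖ζ‖)) / 1 := by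
      apply Complex.norm_deriv_le_of_forall_mem_sphere_norm_le one_pos hZe.diffContOnCl
      intro x hx
      rw [mem_sphere, dist_eq_norm] at hx
      refine (hgr x).trans ?_
      have h2 : ‖x‖ ≤ ‖x - ζ‖ + ‖ζ‖ := by simpa using norm_add_le (x - ζ) ζ
      rw [hx] at h2
      calc C * Real.exp (c * ‖x‖) ≤ C * Real.exp (c * (1 + ‖ζ‖)) := by gcongr
        _ = (C * Real.exp c) * Real.exp (c * ‖ζ‖) := by
            rw [mul_add, mul_one, Real.exp_add]; ring
    rwa [div_one] at h1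
  obtain ⟨α, β, haff⟩ := affine_of_expType hZed
    (fun ζ h => by have := (hent ζ).1; rw [h, zero_mul] at this; exact zero_ne_one this)
    (C := C * Real.exp c) (c := c)
    (by have : (1 : ℝ) ≤ Real.exp c := Real.one_le_exp hc.le
        nlinarith) hc hbd
  -- local agreement
  have hZeZ : ∀ z, z ∉ F → Ze =ᶠ[𝓝 z] Z := by
    intro z hz
    filter_upwards [hFcl.isOpen_compl.mem_nhds hz] with y hy
    exact (hagree y hy).1
  have hd0 : deriv Ze =ᶠ[𝓝 0] deriv Z := (hZeZ 0 h0F).deriv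
  have hβ0 : β ≠ 0 := by
    intro hb0
    apply hcurv
    have h2 : Tendsto (fun t : ℝ => (t : ℂ)) (𝓝 0) (𝓝 0) := by
      simpa using Complex.continuous_ofReal.tendsto 0
    filter_upwards [h2.eventually hd0] with t ht
    rw [not_not, ← ht, ← hd0.eq_of_nhds, haff, haff, hb0]
    simp
  have hunit : ∀ᶠ t : ℝ in 𝓝 0, ρ (Ze t) = 0 ∧ ‖deriv Ze t‖ = 1 := by
    filter_upwards [hnear] with t ht
    have h1 := hZeZ t ht.1
    rw [h1.eq_of_nhds, h1.deriv_eq]
    exact ht.2.self_of_nhds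
  have hreim : ∀ᶠ t : ℝ in 𝓝 0, α.re + β.re * t = 0 := by
    filter_upwards [hunit] with t ht
    have h1 := ht.2
    rw [haff, Complex.norm_exp, Real.exp_eq_one_iff] at h1
    simpa using h1
  have hα : α.re = 0 := by simpa using hreim.self_of_nhds
  have hβ : β.re = 0 := by
    have h1 : HasDerivAt (fun t : ℝ => α.re + β.re * t) (0 + β.re * 1) 0 :=
      (hasDerivAt_const (0 : ℝ) α.re).add ((hasDerivAt_id (0 : ℝ)).const_mul β.re)
    have h2 : HasDerivAt (fun t : ℝ => α.re + β.re * t) 0 0 :=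
      (hasDerivAt_const (0 : ℝ) (0 : ℝ)).congr_of_eventuallyEq hreim
    have := h1.unique h2
    linarith
  set ω := β.im with hω
  have hβω : β = ω * I := by
    apply Complex.ext
    · simp [hβ]
    · simp [hω]
  have hω0 : ω ≠ 0 := by
    intro h
    apply hβ0
    rw [hβω, h]; simp
  -- the circle
  set cc : ℂ := exp α / β with hcc
  set zc : ℂ := Ze 0 - cc with hzc
  have hcc0 : cc ≠ 0 := div_ne_zero (Complex.exp_ne_zero _) hβ0
  have hform : ∀ ζ, Ze ζ = zc + cc * exp (β * ζ) := by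
    have h1 : Differentiable ℂ (fun ζ => Ze ζ - cc * exp (β * ζ)) := by fun_prop
    have h2 : ∀ ζ, deriv (fun ζ => Ze ζ - cc * exp (β * ζ)) ζ = 0 := by
      intro ζ
      have h3 : HasDerivAt (fun ζ => Ze ζ - cc * exp (β * ζ))
          (deriv Ze ζ - cc * (exp (β * ζ) * (β * 1))) ζ :=
        (hZe ζ).hasDerivAt.sub ((((hasDerivAt_id ζ).const_mul β).cexp).const_mul cc)
      rw [h3.deriv, haff, hcc, Complex.exp_add]
      field_simp
      ring
    intro ζ
    have h4 := is_const_of_deriv_eq_zero h1 h2 ζ 0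
    simp only [mul_zero, Complex.exp_zero, mul_one] at h4
    rw [hzc]
    linear_combination h4
  refine csarc hρ hgrad hbdd hconn (p := fun x => zc + cc * x)
    (q := fun x => (starRingEnd ℂ) zc + (starRingEnd ℂ) cc * x⁻¹) (F₁ := ∅) (F₂ := {0})
    isClosed_empty countable_empty isClosed_singleton (countable_singleton 0) (by simp)
    (by simp) (by simp) (by fun_prop) ?_ ?_ ?_ hG hbc' hne'
  · intro x hx
    have hx0 : x ≠ 0 := fun h => hx (by rw [h]; rfl)
    have h1 : DifferentiableAt ℂ (fun x : ℂ => x⁻¹) x := differentiableAt_inv hx0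
    exact ((h1.const_mul _).const_add _).differentiableWithinAt
  · have ht : Tendsto (fun x : ℂ => Complex.arg x / ω) (𝓝 1) (𝓝 0) := by
      have h1 : ContinuousAt Complex.arg 1 := Complex.continuousAt_arg (by simp)
      have h2 : ContinuousAt (fun x : ℂ => Complex.arg x / ω) 1 := h1.div_const ω
      have h3 := h2.tendsto
      simpa using h3
    filter_upwards [ht.eventually hunit] with x hx hx1
    have h1 : exp (β * ((Complex.arg x / ω : ℝ) : ℂ)) = x := by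
      have h2 : β * ((Complex.arg x / ω : ℝ) : ℂ) = Complex.arg x * I := by
        rw [hβω]
        push_cast
        have : (ω : ℂ) ≠ 0 := by exact_mod_cast hω0
        field_simp
      rw [h2]
      have h3 := Complex.norm_mul_exp_arg_mul_I x
      rw [hx1] at h3
      simpa using h3
    refine ⟨?_, ?_⟩
    · have h2 := hx.1
      rw [hform, h1] at h2
      exact h2
    · simp only [map_add, map_mul]
      rw [← Complex.inv_eq_conj hx1]
  · have h1 : HasDerivAt (fun x : ℂ => zc + cc * x) (cc * 1) 1 :=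
      ((hasDerivAt_id (1 : ℂ)).const_mul cc).const_add zc
    rw [h1.deriv, mul_one]
    exact hcc0

end Pool.Agent.Stek
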