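import Pool.Agent.Lib.MP_bd8415_an.Arclen.Local
import Pool.Agent.Lib.MP_bd8415_an.Arclen.GrowG

/-!
# The step lemma: bounded growth on short strips
-/

open Complex Metric Set Filter Topology

namespace Pool.Agent.Stek

/-- The penalty factor is almost an exponential. -/
theorem penalty {m : ℕ} (hm : m = 16000000) {x : ℝ} (hx : |x| ≤ 2000) :
    1 ≤ (1 - x / m) ^ m * (2 * Real.exp x) := by
  have hmr : (m : ℝ) = 16000000 := by rw [hm]; norm_num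
  have hm0 : (0 : ℝ) < m := by rw [hmr]; norm_num
  set y : ℝ := x / m with hy
  have hxy : x = m * y := by rw [hy]; field_simp
  have hyb : |y| ≤ 1 / 8000 := by
    rw [hy, abs_div, abs_of_pos hm0, div_le_iff₀ hm0, hmr]
    linarith
  obtain ⟨hy1, hy2⟩ := abs_le.1 hyb
  have h1y : 0 < 1 - y := by linarith
  -- `exp (-(y + 2 y^2)) ≤ 1 - y`
  have h1 : Real.exp (-(y + 2 * y ^ 2)) ≤ 1 - y := by
    have h2 : Real.log ((1 - y)⁻¹) ≤ (1 - y)⁻¹ - 1 := Real.log_le_sub_one_of_pos (by positivity)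
    have h3 : (1 - y)⁻¹ - 1 ≤ y + 2 * y ^ 2 := by
      rw [sub_le_iff_le_add, inv_le_iff_one_le_mul₀ h1y]
      nlinarith [sq_nonneg y]
    rw [Real.log_inv] at h2
    calc Real.exp (-(y + 2 * y ^ 2)) ≤ Real.exp (Real.log (1 - y)) :=
          Real.exp_le_exp.2 (by linarith)
      _ = 1 - y := Real.exp_log h1y
  have h4 : Real.exp (-(y + 2 * y ^ 2)) ^ m ≤ (1 - y) ^ m :=
    pow_le_pow_left₀ (Real.exp_pos _).le h1 m
  rw [← Real.exp_nat_mul] at h4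
  have h5 : (m : ℝ) * -(y + 2 * y ^ 2) = -x - x ^ 2 / 8000000 := by
    rw [hxy, hmr]; ring
  rw [h5] at h4
  have h6 : -x - 1 / 2 ≤ -x - x ^ 2 / 8000000 := by
    have : x ^ 2 ≤ 4000000 := by
      have := sq_le_sq' (by linarith [(abs_le.1 hx).1]) (abs_le.1 hx).2
      linarith
    linarith
  have h7 : Real.exp (-x - 1 / 2) ≤ (1 - y) ^ m := (Real.exp_le_exp.2 h6).trans h4
  have h8 : (1 : ℝ) / 2 ≤ Real.exp (-(1 / 2)) := by
    have := Real.add_one_le_exp (-(1 / 2) : ℝ)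
    linarith
  calc (1 : ℝ) ≤ Real.exp (-(1 / 2)) * 2 := by linarith
    _ = Real.exp (-x - 1 / 2) * (2 * Real.exp x) := by
        have e1 : Real.exp (-(1 / 2)) = Real.exp (-x - 1 / 2) * Real.exp x := by
          rw [← Real.exp_add]; congr 1; ring
        rw [e1]; ring
    _ ≤ (1 - y) ^ m * (2 * Real.exp x) := by gcongr

/-- Reduction modulo the period. -/
theorem periodic_reduce {z : ℂ → ℂ} (hp : ∀ τ, z (τ + 2 * Real.pi * I) = z τ) (τ : ℂ) (k : ℤ) :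
    z (τ + k * (2 * Real.pi * I)) = z τ := by
  have h : Function.Periodic z (2 * Real.pi * I) := hp
  have := h.int_mul k τ
  simpa using this

/-- One half of the contradiction: a good point where `‖w‖ ≤ ‖z‖`. -/
theorem good_point {G H : ℂ → ℂ} (hG : Differentiable ℂ G) (hH : Differentiable ℂ H) {κ : ℂ}
    {R0 : ℝ} (hgrow : ∀ P, R0 ≤ P → ∃ zb xP : ℂ, ‖zb‖ = Real.exp 1 * P ∧
      (∀ x, ‖x‖ ≤ P → ‖G x‖ ≤ ‖G xP‖) ∧ 2 * ‖G xP‖ < ‖G zb‖)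
    (hGH : ∀ P B : ℝ, (∀ x, ‖x‖ ≤ P → ‖G x‖ ≤ B) → ∀ x, ‖x‖ ≤ P → ‖H x‖ ≤ B)
    {m : ℕ} (hm : m = 16000000) {δ : ℝ} (hδ1 : δ ≤ 1) (hδκ : 50 * (‖κ‖ * δ) ≤ 1)
    {z w φ : ℂ → ℂ} {a' b : ℝ} {τ₀ : ℂ} (hu : τ₀.re < b) (ha' : a' ≤ τ₀.re - (b - τ₀.re))
    (hz : ∀ τ : ℂ, a' ≤ τ.re → DifferentiableAt ℂ z τ)
    (hw : ∀ τ : ℂ, a' ≤ τ.re → DifferentiableAt ℂ w τ)
    (hφ : ∀ τ : ℂ, a' ≤ τ.re → τ.re ≤ b → deriv z τ * deriv w τ = φ τ ^ 2 ∧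
      ‖φ τ‖ * ((b - τ₀.re) / m) ≤ δ)
    (hrel : ∀ τ : ℂ, a' ≤ τ.re → τ.re ≤ b → deriv G (z τ) * deriv z τ -
      deriv H (w τ) * deriv w τ = κ * φ τ * (G (z τ) + H (w τ)))
    (hP : 1000000 ≤ ‖z τ₀‖) (hPR : R0 ≤ ‖z τ₀‖)
    (hmaxz : ∀ τ : ℂ, a' ≤ τ.re → τ.re ≤ b →
      ‖z τ‖ * (b - τ.re) ^ m ≤ ‖z τ₀‖ * (b - τ₀.re) ^ m)
    (hmaxw : ∀ τ : ℂ, a' ≤ τ.re → τ.re ≤ b →
      ‖w τ‖ * (b - τ.re) ^ m ≤ ‖z τ₀‖ * (b - τ₀.re) ^ m) : False := by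
  have hmr : (m : ℝ) = 16000000 := by rw [hm]; norm_num
  have hm0 : (0 : ℝ) < m := by rw [hmr]; norm_num
  set P := ‖z τ₀‖ with hPdef
  have hP0 : 0 < P := by linarith
  set u := τ₀.re with hudef
  set ρ : ℝ := (b - u) / m with hρ
  have hρ0 : 0 < ρ := div_pos (by linarith) hm0
  have hbu : b - u = m * ρ := by rw [hρ]; field_simp
  -- points of the scaled disc
  have hpt : ∀ η ∈ ball (0 : ℂ) 2000, a' ≤ (τ₀ + η * ρ).re ∧ (τ₀ + η * ρ).re ≤ b ∧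
      b - (τ₀ + η * ρ).re = (b - u) * (1 - η.re / m) := by
    intro η hη
    rw [mem_ball_zero_iff] at hη
    have h1 := Complex.abs_re_le_norm η
    obtain ⟨h2, h3⟩ := abs_le.1 h1
    have h4 : (τ₀ + η * ρ).re = u + η.re * ρ := by simp [hudef]
    rw [h4]
    refine ⟨?_, ?_, ?_⟩
    · have : -(m * ρ) ≤ η.re * ρ := by
        rw [hmr, ← neg_mul]
        apply mul_le_mul_of_nonneg_right _ hρ0.le
        linarith
      linarith
    · have : η.re * ρ ≤ m * ρ := by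
        rw [hmr]
        apply mul_le_mul_of_nonneg_right _ hρ0.le
        linarith
      linarith
    · rw [hbu]
      field_simp
      linarith
  have hbound : ∀ v : ℂ → ℂ, (∀ τ : ℂ, a' ≤ τ.re → τ.re ≤ b →
      ‖v τ‖ * (b - τ.re) ^ m ≤ P * (b - u) ^ m) →
      ∀ η ∈ ball (0 : ℂ) 2000, ‖v (τ₀ + η * ρ)‖ ≤ 2 * P * Real.exp η.re := by
    intro v hv η hη
    obtain ⟨h1, h2, h3⟩ := hpt η hη
    have h4 := hv _ h1 h2
    rw [h3, mul_pow] at h4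
    have h5 : 0 < (b - u) ^ m := pow_pos (by linarith) m
    have h6 : ‖v (τ₀ + η * ρ)‖ * (1 - η.re / m) ^ m ≤ P := by
      have : (‖v (τ₀ + η * ρ)‖ * (1 - η.re / m) ^ m) * (b - u) ^ m ≤ P * (b - u) ^ m := by
        linarith
      exact le_of_mul_le_mul_right this h5
    rw [mem_ball_zero_iff] at hη
    have h7 := penalty hm (x := η.re) ((Complex.abs_re_le_norm η).trans hη.le)
    calc ‖v (τ₀ + η * ρ)‖ = ‖v (τ₀ + η * ρ)‖ * 1 := (mul_one _).symm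
      _ ≤ ‖v (τ₀ + η * ρ)‖ * ((1 - η.re / m) ^ m * (2 * Real.exp η.re)) := by gcongr
      _ = (‖v (τ₀ + η * ρ)‖ * (1 - η.re / m) ^ m) * (2 * Real.exp η.re) := by ring
      _ ≤ P * (2 * Real.exp η.re) := by gcongr
      _ = 2 * P * Real.exp η.re := by ring
  have hsc : ∀ v : ℂ → ℂ, (∀ τ : ℂ, a' ≤ τ.re → DifferentiableAt ℂ v τ) →
      ∀ η ∈ ball (0 : ℂ) 2000, HasDerivAt (fun η : ℂ => v (τ₀ + η * ρ))
        (deriv v (τ₀ + η * ρ) * ρ) η := by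
    intro v hv η hη
    have h1 : HasDerivAt (fun η : ℂ => τ₀ + η * ρ) (ρ : ℂ) η := by
      simpa using ((hasDerivAt_id η).mul_const (ρ : ℂ)).const_add τ₀
    exact ((hv _ (hpt η hη).1).hasDerivAt).comp η h1
  obtain ⟨zb, xP, hzb, hmaxG, hlt⟩ := hgrow P hPR
  have key := local_lemma (G := G) (H := H) (z := fun η : ℂ => z (τ₀ + η * ρ))
    (w := fun η : ℂ => w (τ₀ + η * ρ)) (φ := fun η : ℂ => φ (τ₀ + η * ρ) * ρ) (κ := κ) (P := P)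
    (B := ‖G xP‖) (δ := δ) hG hH hP hδ1 hδκ (by simp [hPdef])
    (fun η hη => (hsc z hz η hη).differentiableAt.differentiableWithinAt)
    (fun η hη => (hsc w hw η hη).differentiableAt.differentiableWithinAt)
    (hbound z hmaxz) (hbound w hmaxw)
    (by
      intro η hη
      obtain ⟨h1, h2, -⟩ := hpt η hη
      obtain ⟨h3, h4⟩ := hφ _ h1 h2
      rw [(hsc z hz η hη).deriv, (hsc w hw η hη).deriv]
      refine ⟨by linear_combination ((ρ : ℂ) ^ 2) * h3, ?_⟩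
      rw [norm_mul, Complex.norm_real, Real.norm_eq_abs, abs_of_pos hρ0]
      exact h4)
    (by
      intro η hη
      obtain ⟨h1, h2, -⟩ := hpt η hη
      have h3 := hrel _ h1 h2
      rw [(hsc z hz η hη).deriv, (hsc w hw η hη).deriv]
      linear_combination (ρ : ℂ) * h3)
    hmaxG (hGH P _ hmaxG) hzb
  linarith

theorem exists_period_shift (τ : ℂ) : ∃ k : ℤ, 0 ≤ (τ + k * (2 * Real.pi * I)).im ∧
    (τ + k * (2 * Real.pi * I)).im ≤ 2 * Real.pi := by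
  have hpi := Real.pi_pos
  refine ⟨-⌊τ.im / (2 * Real.pi)⌋, ?_⟩
  have h1 : (τ + ((-⌊τ.im / (2 * Real.pi)⌋ : ℤ) : ℂ) * (2 * Real.pi * I)).im =
      τ.im - ⌊τ.im / (2 * Real.pi)⌋ * (2 * Real.pi) := by
    simp
    ring
  rw [h1]
  have h2 := Int.floor_le (τ.im / (2 * Real.pi))
  have h3 := Int.lt_floor_add_one (τ.im / (2 * Real.pi))
  rw [le_div_iff₀ (by positivity)] at h2
  rw [div_lt_iff₀ (by positivity)] at h3
  constructor <;> nlinarith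

/-- The step lemma. -/
theorem step {G H : ℂ → ℂ} (hG : Differentiable ℂ G) (hH : Differentiable ℂ H) {κ : ℂ}
    {R0 : ℝ} (hgrowG : ∀ P, R0 ≤ P → ∃ zb xP : ℂ, ‖zb‖ = Real.exp 1 * P ∧
      (∀ x, ‖x‖ ≤ P → ‖G x‖ ≤ ‖G xP‖) ∧ 2 * ‖G xP‖ < ‖G zb‖)
    (hgrowH : ∀ P, R0 ≤ P → ∃ zb xP : ℂ, ‖zb‖ = Real.exp 1 * P ∧
      (∀ x, ‖x‖ ≤ P → ‖H x‖ ≤ ‖H xP‖) ∧ 2 * ‖H xP‖ < ‖H zb‖)
    (hGH : ∀ P B : ℝ, (∀ x, ‖x‖ ≤ P → ‖G x‖ ≤ B) → ∀ x, ‖x‖ ≤ P → ‖H x‖ ≤ B)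
    (hHG : ∀ P B : ℝ, (∀ x, ‖x‖ ≤ P → ‖H x‖ ≤ B) → ∀ x, ‖x‖ ≤ P → ‖G x‖ ≤ B)
    {m : ℕ} (hm : m = 16000000) {δ : ℝ} (hδ1 : δ ≤ 1) (hδκ : 50 * (‖κ‖ * δ) ≤ 1)
    {z w φ : ℂ → ℂ} {a b N : ℝ} (hab : a < b)
    (hz : ∀ τ : ℂ, a - (b - a) ≤ τ.re → DifferentiableAt ℂ z τ)
    (hw : ∀ τ : ℂ, a - (b - a) ≤ τ.re → DifferentiableAt ℂ w τ)
    (hpz : ∀ τ, z (τ + 2 * Real.pi * I) = z τ) (hpw : ∀ τ, w (τ + 2 * Real.pi * I) = w τ)
    (hφ : ∀ τ : ℂ, a - (b - a) ≤ τ.re → τ.re ≤ b → deriv z τ * deriv w τ = φ τ ^ 2 ∧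
      ‖φ τ‖ * ((b - a) / m) ≤ δ)
    (hrel : ∀ τ : ℂ, a - (b - a) ≤ τ.re → τ.re ≤ b → deriv G (z τ) * deriv z τ -
      deriv H (w τ) * deriv w τ = κ * φ τ * (G (z τ) + H (w τ)))
    (hN : 1000000 ≤ N) (hNR : R0 ≤ N)
    (hNb : ∀ τ : ℂ, a - (b - a) ≤ τ.re → τ.re ≤ a → ‖z τ‖ ≤ N ∧ ‖w τ‖ ≤ N)
    (τ₁ : ℂ) (hτ₁ : τ₁.re = (a + b) / 2) : max ‖z τ₁‖ ‖w τ₁‖ ≤ 4 ^ m * N := by
  by_contra hcon
  push Not at hcon
  have hmr : (m : ℝ) = 16000000 := by rw [hm]; norm_num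
  have hm0 : (0 : ℝ) < m := by rw [hmr]; norm_num
  have hN0 : 0 < N := by linarith
  have hba : 0 < b - a := by linarith
  set n : ℂ → ℝ := fun τ => max ‖z τ‖ ‖w τ‖ with hn
  set Φ : ℂ → ℝ := fun τ => n τ * (b - τ.re) ^ m with hΦ
  set Q : Set ℂ := Icc (a - (b - a)) b ×ℂ Icc 0 (2 * Real.pi) with hQ
  have hQc : IsCompact Q := isCompact_Icc.reProdIm isCompact_Icc
  have hQm : ∀ τ : ℂ, τ ∈ Q ↔ (a - (b - a) ≤ τ.re ∧ τ.re ≤ b) ∧ 0 ≤ τ.im ∧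
      τ.im ≤ 2 * Real.pi := fun τ => Iff.rfl
  have hΦc : ContinuousOn Φ Q := by
    intro τ hτ
    have h1 := ((hQm τ).1 hτ).1.1
    have h2 : ContinuousAt z τ := (hz τ h1).continuousAt
    have h3 : ContinuousAt w τ := (hw τ h1).continuousAt
    have h4 : ContinuousAt (fun τ : ℂ => (b - τ.re) ^ m) τ := by
      have : Continuous (fun τ : ℂ => (b - τ.re) ^ m) :=
        (continuous_const.sub Complex.continuous_re).pow m
      exact this.continuousAt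
    have h5 : ContinuousAt Φ τ := ContinuousAt.mul (h2.norm.max h3.norm) h4
    exact h5.continuousWithinAt
  have hpi := Real.pi_pos
  have hQne : Q.Nonempty := ⟨(a : ℂ), by
    rw [hQm]; simp only [Complex.ofReal_re, Complex.ofReal_im]
    refine ⟨⟨by linarith, hab.le⟩, le_rfl, by positivity⟩⟩
  obtain ⟨τ₀, hτ₀, hmax⟩ := hQc.exists_isMaxOn hQne hΦc
  have hmax' : ∀ τ : ℂ, a - (b - a) ≤ τ.re → τ.re ≤ b → Φ τ ≤ Φ τ₀ := by
    intro τ h1 h2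
    obtain ⟨k, hk1, hk2⟩ := exists_period_shift τ
    have h3 : (τ + k * (2 * Real.pi * I)).re = τ.re := by simp
    have h4 : Φ (τ + k * (2 * Real.pi * I)) = Φ τ := by
      simp only [hΦ, hn]
      rw [periodic_reduce hpz, periodic_reduce hpw, h3]
    rw [← h4]
    apply hmax
    rw [hQm, h3]
    exact ⟨⟨h1, h2⟩, hk1, hk2⟩
  have hτ₀Q := (hQm τ₀).1 hτ₀
  -- the value at `τ₁`
  have hΦ1 : N * (2 * (b - a)) ^ m < Φ τ₁ := by
    have h1 : b - τ₁.re = (b - a) / 2 := by rw [hτ₁]; ring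
    have h2 : N * (2 * (b - a)) ^ m = (4 ^ m * N) * ((b - a) / 2) ^ m := by
      have : (2 * (b - a)) ^ m = 4 ^ m * ((b - a) / 2) ^ m := by
        rw [← mul_pow]; congr 1; ring
      rw [this]; ring
    simp only [hΦ]
    rw [h1, h2]
    exact mul_lt_mul_of_pos_right hcon (by positivity)
  have hΦ01 : N * (2 * (b - a)) ^ m < Φ τ₀ :=
    hΦ1.trans_le (hmax' τ₁ (by rw [hτ₁]; linarith) (by rw [hτ₁]; linarith))
  -- `τ₀` is to the right of `a`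
  have hu : a < τ₀.re := by
    by_contra hle
    push Not at hle
    obtain ⟨h1, h2⟩ := hNb τ₀ hτ₀Q.1.1 hle
    have h3 : n τ₀ ≤ N := max_le h1 h2
    have h4 : (b - τ₀.re) ^ m ≤ (2 * (b - a)) ^ m :=
      pow_le_pow_left₀ (by linarith) (by linarith [hτ₀Q.1.1]) m
    have h5 : Φ τ₀ ≤ N * (2 * (b - a)) ^ m := by
      simp only [hΦ]
      exact mul_le_mul h3 h4 (pow_nonneg (by linarith) m) hN0.le
    linarith
  have hub : τ₀.re < b := by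
    rcases hτ₀Q.1.2.lt_or_eq with h | h
    · exact h
    · exfalso
      have h5 : Φ τ₀ = 0 := by
        simp only [hΦ]
        rw [h, sub_self, zero_pow (by rw [hm]; norm_num), mul_zero]
      have : 0 < N * (2 * (b - a)) ^ m := by positivity
      linarith
  have hbu : 0 < b - τ₀.re := by linarith
  have hPN : N < n τ₀ := by
    have h1 : N * (b - τ₀.re) ^ m ≤ N * (2 * (b - a)) ^ m := by
      apply mul_le_mul_of_nonneg_left _ hN0.le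
      exact pow_le_pow_left₀ hbu.le (by linarith) m
    have h2 : N * (b - τ₀.re) ^ m < n τ₀ * (b - τ₀.re) ^ m := h1.trans_lt hΦ01
    exact lt_of_mul_lt_mul_right h2 (by positivity)
  have ha' : a - (b - a) ≤ τ₀.re - (b - τ₀.re) := by linarith
  have hφ' : ∀ τ : ℂ, a - (b - a) ≤ τ.re → τ.re ≤ b → deriv z τ * deriv w τ = φ τ ^ 2 ∧
      ‖φ τ‖ * ((b - τ₀.re) / m) ≤ δ := by
    intro τ h1 h2
    obtain ⟨h3, h4⟩ := hφ τ h1 h2
    refine ⟨h3, le_trans ?_ h4⟩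
    gcongr
  have hmz : ∀ τ : ℂ, a - (b - a) ≤ τ.re → τ.re ≤ b →
      ‖z τ‖ * (b - τ.re) ^ m ≤ n τ₀ * (b - τ₀.re) ^ m := by
    intro τ h1 h2
    refine le_trans ?_ (hmax' τ h1 h2)
    exact mul_le_mul_of_nonneg_right (le_max_left _ _) (pow_nonneg (by linarith) m)
  have hmw : ∀ τ : ℂ, a - (b - a) ≤ τ.re → τ.re ≤ b →
      ‖w τ‖ * (b - τ.re) ^ m ≤ n τ₀ * (b - τ₀.re) ^ m := by
    intro τ h1 h2
    refine le_trans ?_ (hmax' τ h1 h2)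
    exact mul_le_mul_of_nonneg_right (le_max_right _ _) (pow_nonneg (by linarith) m)
  rcases le_total ‖w τ₀‖ ‖z τ₀‖ with hle | hle
  · have hnz : n τ₀ = ‖z τ₀‖ := max_eq_left hle
    rw [hnz] at hmz hmw hPN
    exact good_point hG hH hgrowG hGH hm hδ1 hδκ hub ha' hz hw hφ' hrel (by linarith)
      (by linarith) hmz hmw
  · have hnz : n τ₀ = ‖w τ₀‖ := max_eq_right hle
    rw [hnz] at hmz hmw hPN
    refine good_point (κ := -κ) hH hG hgrowH hHG hm hδ1 (by rwa [norm_neg]) hub ha' hw hz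
      (fun τ h1 h2 => ?_) (fun τ h1 h2 => ?_) (by linarith) (by linarith) hmw hmz (φ := φ)
    · obtain ⟨h3, h4⟩ := hφ' τ h1 h2
      exact ⟨by rw [mul_comm]; exact h3, h4⟩
    · linear_combination -(hrel τ h1 h2)

end Pool.Agent.Stek
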